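import Pool.Agent.H93.FL.HPS

/-! Row DKM. -/

set_option autoImplicit false

open Finset

namespace Pool.Agent.H93.FL

open Pool.Agent.H93.BT Pool.Agent.H24.FD Pool.FD

lemma card_TQ (ε : ℝ) (r : ℕ) : ((TQ ε r).card : ℝ) ≤ (2:ℝ) ^ ((3 / 2 + 3 * ε) * r) := by
  classical
  have hsum : ∑ S : Fin r → Fin 3, ∏ i, (![1/4, 1/4, 1/2] : Fin 3 → ℝ) (S i) = 1 := by
    rw [← Fintype.sum_pow, Fin.sum_univ_three]
    simp only [Matrix.cons_val_zero, Matrix.cons_val_one, Matrix.cons_val]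
    norm_num
  have hlow : ∀ S ∈ TQ ε r, (2:ℝ) ^ (-((3 / 2 + 3 * ε) * r)) ≤ ∏ i, (![1/4, 1/4, 1/2] : Fin 3 → ℝ) (S i) := by
    intro S hS
    rw [mem_TQ] at hS
    have hc : (cnt 0 S : ℝ) + cnt 1 S + cnt 2 S = r := by exact_mod_cast cnt_sum S
    rw [prod_cnt]
    simp only [Matrix.cons_val_zero, Matrix.cons_val_one, Matrix.cons_val]
    have e : (1 / 4 : ℝ) ^ cnt 0 S * (1 / 4) ^ cnt 1 S * (1 / 2) ^ cnt 2 S =
        (2:ℝ) ^ (-(2 * (cnt 0 S : ℝ) + 2 * cnt 1 S + cnt 2 S)) := by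
      have h4 : (1 / 4 : ℝ) = (2:ℝ) ^ (-2 : ℝ) := by
        rw [Real.rpow_neg (by norm_num)]; norm_num
      have h2 : (1 / 2 : ℝ) = (2:ℝ) ^ (-1 : ℝ) := by
        rw [Real.rpow_neg (by norm_num)]; norm_num
      rw [h4, h2, ← Real.rpow_natCast, ← Real.rpow_natCast, ← Real.rpow_natCast,
        ← Real.rpow_mul (by norm_num), ← Real.rpow_mul (by norm_num), ← Real.rpow_mul (by norm_num),
        ← Real.rpow_add (by norm_num), ← Real.rpow_add (by norm_num)]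
      congr 1; ring
    rw [e]
    apply Real.rpow_le_rpow_of_exponent_le (by norm_num)
    nlinarith [hS.1, hS.2.1]
  have h1 : ((TQ ε r).card : ℝ) * (2:ℝ) ^ (-((3 / 2 + 3 * ε) * r)) ≤ 1 := by
    rw [← hsum, ← nsmul_eq_mul, ← sum_const]
    refine (sum_le_sum hlow).trans ?_
    apply sum_le_sum_of_subset_of_nonneg (subset_univ _)
    intro S _ _
    apply prod_nonneg
    intro i _
    generalize S i = s
    fin_cases s <;> simp
  rw [Real.rpow_neg (by norm_num)] at h1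
  have hpos : (0:ℝ) < (2:ℝ) ^ ((3 / 2 + 3 * ε) * r) := Real.rpow_pos_of_pos (by norm_num) _
  rwa [← div_eq_mul_inv, div_le_one hpos] at h1

lemma h0_le : h0 ≤ 69 / 100 := by
  unfold h0
  have hl2 := log23
  have h : Real.log ((3:ℝ) ^ 100) ≤ Real.log ((2:ℝ) ^ 158 * 2 ^ 1) :=
    Real.log_le_log (by norm_num) (by norm_num)
  rw [← pow_add, Real.log_pow, Real.log_pow] at h
  push_cast at h
  have : Real.log 3 / Real.log 2 ≤ 159 / 100 := by
    rw [div_le_iff₀ hl2]; linarith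
  -- a sharper bound
  have h' : Real.log ((3:ℝ) ^ 150) ≤ Real.log ((4:ℝ) ^ 119) :=
    Real.log_le_log (by norm_num) (by norm_num)
  have h4 : Real.log 4 = 2 * Real.log 2 := by
    rw [show (4:ℝ) = 2 ^ 2 by norm_num, Real.log_pow]; norm_num
  rw [Real.log_pow, Real.log_pow, h4] at h'
  push_cast at h'
  have : Real.log 3 / Real.log 2 ≤ 238 / 150 := by
    rw [div_le_iff₀ hl2]; linarith
  linarith

lemma log_le_pow (K : ℕ) (hK : 1 ≤ K) : 1 + Real.log K ≤ 1001 * (K:ℝ) ^ (1 / 1000 : ℝ) := by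
  have hK0 : (0:ℝ) < K := by exact_mod_cast hK
  have h1 : (1:ℝ) ≤ (K:ℝ) ^ (1 / 1000 : ℝ) := by
    apply Real.one_le_rpow (by exact_mod_cast hK) (by norm_num)
  have h2 : Real.log K ≤ 1000 * (K:ℝ) ^ (1 / 1000 : ℝ) := by
    have h3 : Real.log ((K:ℝ) ^ (1 / 1000 : ℝ)) ≤ (K:ℝ) ^ (1 / 1000 : ℝ) - 1 :=
      Real.log_le_sub_one_of_pos (by positivity)
    rw [Real.log_rpow hK0] at h3
    linarith
  linarith

theorem dkm (hdin : DINStmt) : DKMStmt := by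
  classical
  obtain ⟨l₁, hl₁⟩ := T1 eb (by unfold eb; norm_num)
  obtain ⟨Cd, hCd1, hCd⟩ := divisor_bound (1 / 10000) (by norm_num)
  refine ⟨14 + 4004 * Cd, by linarith, l₁ + 1, fun l hl K hK => ?_⟩
  have hP : PTB eb l := hl₁ l (by omega)
  have hε : (0:ℝ) ≤ eb := by unfold eb; norm_num
  have hK0 : (0:ℝ) < K := by exact_mod_cast hK
  have hK1 : (1:ℝ) ≤ K := by exact_mod_cast hK
  set v := vv l K with hv
  have hl0 : (0:ℝ) < l := by exact_mod_cast (by omega : 0 < l)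
  -- look-back length
  have hr : 186 / 100 * Real.logb 2 K ≤ ((l * v : ℕ) : ℝ) := by
    have h1 : 186 / 100 * Real.logb 2 K / l ≤ (v:ℝ) := Nat.le_ceil _
    rw [div_le_iff₀ hl0] at h1
    push_cast
    linarith
  set r : ℝ := ((l * v : ℕ) : ℝ) with hrdef
  have hr0 : 0 ≤ r := by positivity
  have hdec : ∀ x : ℝ, 0 ≤ x → (2:ℝ) ^ (-(x * r)) ≤ (K:ℝ) ^ (-(186 / 100 * x)) := by
    intro x hx
    have e : (K:ℝ) ^ (-(186 / 100 * x)) = (2:ℝ) ^ (-(x * (186 / 100 * Real.logb 2 K))) := by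
      have hK2 : (K:ℝ) = (2:ℝ) ^ (Real.logb 2 K) := by
        rw [Real.rpow_logb (by norm_num) (by norm_num) hK0]
      conv_lhs => rw [hK2]
      rw [← Real.rpow_mul (by norm_num)]
      congr 1; ring
    rw [e]
    apply Real.rpow_le_rpow_of_exponent_le (by norm_num)
    have := mul_le_mul_of_nonneg_left hr hx
    linarith
  rw [(hdin (l * v) (Pool.Agent.H24.FD.pw l v) K).2]
  set w : ℝ := (2:ℝ) ^ (-((3 / 2 - 2 * eb) * r)) with hw
  have hwU : ∀ U : Fin v → Fin l → Fin 3, PT eb U ≤ w := fun U => PT_le hP U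
  have hterm : ∀ k ∈ bx0 K, (∑ n ∈ range (2 ^ (l * v)), ∑ a ∈ range (2 ^ (l * v)), ∑ n' ∈ range (2 ^ (l * v)),
      ∑ a' ∈ range (2 ^ (l * v)), if k.1 * ((n:ℤ) - n') + k.2 * ((a:ℤ) - a') = 0 then
        Pool.Agent.H24.FD.pw l v n a * Pool.Agent.H24.FD.pw l v n' a' else 0) ≤
      w ^ 2 * (((TQ eb (v * l) ×ˢ TQ eb (v * l)).filter fun p => XV k p.1 = XV k p.2).card : ℝ) := by
    intro k _
    have hpt : ∑ U : Fin v → Fin l → Fin 3, ∑ U' : Fin v → Fin l → Fin 3,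
        (if XV k (flat U) = XV k (flat U') then PT eb U * PT eb U' else 0) ≤
        w ^ 2 * (((TQ eb (v * l) ×ˢ TQ eb (v * l)).filter fun p => XV k p.1 = XV k p.2).card : ℝ) := by
      have := pair_transfer w hwU (fun S S' => XV k S = XV k S')
      convert this using 6
    refine le_trans (le_of_eq ?_) hpt
    have h1 := pw_sum2 l v (fun n a n' a' => if k.1 * ((n:ℤ) - n') + k.2 * ((a:ℤ) - a') = 0 then (1:ℝ) else 0)
    have e1 : ∀ n a n' a' : ℕ, (if k.1 * ((n:ℤ) - n') + k.2 * ((a:ℤ) - a') = 0 then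
        Pool.Agent.H24.FD.pw l v n a * Pool.Agent.H24.FD.pw l v n' a' else 0) =
        Pool.Agent.H24.FD.pw l v n a * Pool.Agent.H24.FD.pw l v n' a' *
          (if k.1 * ((n:ℤ) - n') + k.2 * ((a:ℤ) - a') = 0 then (1:ℝ) else 0) := by
      intro n a n' a'; split_ifs <;> simp
    simp only [e1]
    rw [h1]
    apply sum_congr rfl; intro U _; apply sum_congr rfl; intro U' _
    have e2 : (k.1 * ((VN U:ℤ) - VN U') + k.2 * ((VA U:ℤ) - VA U') = 0) ↔ XV k (flat U) = XV k (flat U') := by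
      rw [XV_lin k (flat U), XV_lin k (flat U'), XV_N, XV_A, XV_N, XV_A]
      constructor <;> intro h <;> linarith
    by_cases h : XV k (flat U) = XV k (flat U')
    · rw [if_pos h, if_pos (e2.2 h), mul_one]
    · rw [if_neg h, if_neg (fun h2 => h (e2.1 h2)), mul_zero]
  refine (sum_le_sum hterm).trans ?_
  rw [← mul_sum]
  have hsub : bx0 K ⊆ BT.box K := by
    intro k hk
    rw [bx0, mem_filter, bx, mem_product, mem_Ioo, mem_Ioo] at hk
    rw [BT.box, mem_filter, mem_product, mem_Icc, mem_Icc]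
    exact ⟨⟨⟨hk.1.1.1.le, hk.1.1.2.le⟩, ⟨hk.1.2.1.le, hk.1.2.2.le⟩⟩, hk.2⟩
  set T : ℝ := Cd * (2:ℝ) ^ (1 / 10000 * r) with hTdef
  have hT0 : 0 ≤ T := by rw [hTdef]; positivity
  have hvl : ((v * l : ℕ) : ℝ) = r := by rw [hrdef, mul_comm]
  have hT : ∀ n : ℕ, n ≠ 0 → n < 2 ^ (v * l) → (n.divisors.card : ℝ) ≤ T := by
    intro n hn hlt
    refine (hCd n hn).trans ?_
    rw [hTdef]
    apply mul_le_mul_of_nonneg_left _ (by linarith)
    have : (n:ℝ) ≤ (2:ℝ) ^ r := by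
      rw [← hvl, Real.rpow_natCast]; exact_mod_cast hlt.le
    calc (n:ℝ) ^ (1 / 10000 : ℝ) ≤ ((2:ℝ) ^ r) ^ (1 / 10000 : ℝ) :=
          Real.rpow_le_rpow (by positivity) this (by norm_num)
      _ = (2:ℝ) ^ (1 / 10000 * r) := by rw [← Real.rpow_mul (by norm_num)]; congr 1; ring
  have hcoll := coll eb hε (v * l) K T hT0 hT
  have hsum : ∑ k ∈ bx0 K, (((TQ eb (v * l) ×ˢ TQ eb (v * l)).filter fun p => XV k p.1 = XV k p.2).card : ℝ) ≤
      ∑ k ∈ BT.box K, (((TQ eb (v * l) ×ˢ TQ eb (v * l)).filter fun p => XV k p.1 = XV k p.2).card : ℝ) :=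
    sum_le_sum_of_subset_of_nonneg hsub fun _ _ _ => by positivity
  have hw0 : 0 ≤ w ^ 2 := by positivity
  refine (mul_le_mul_of_nonneg_left (hsum.trans hcoll) hw0).trans ?_
  -- estimates
  have hcardTQ := card_TQ eb (v * l)
  rw [hvl] at hcardTQ hcoll
  have hwBB : w ^ 2 * BB eb (v * l) = (2:ℝ) ^ (-(hh eb * r)) := wBB l v
  have hBBdef : (13 ^ (v * l) * (2:ℝ) ^ (-((3 - 8 * eb) / 2 * ((v * l : ℕ) : ℝ)))) = BB eb (v * l) := rfl
  rw [hBBdef]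
  have hw2 : w ^ 2 = (2:ℝ) ^ (-((3 - 4 * eb) * r)) := by
    rw [hw, ← Real.rpow_natCast, ← Real.rpow_mul (by norm_num)]; congr 1; push_cast; ring
  have hKp : (0:ℝ) < (K:ℝ) ^ (-(485 / 1000 : ℝ)) := Real.rpow_pos_of_pos hK0 _
  -- first
  have f1 : w ^ 2 * ((2 * K + 1) ^ 2 * (TQ eb (v * l)).card) ≤ 9 * (K:ℝ) ^ (-(485 / 1000 : ℝ)) := by
    have a1 : w ^ 2 * ((TQ eb (v * l)).card : ℝ) ≤ (2:ℝ) ^ (-((3 / 2 - 7 * eb) * r)) := by
      calc w ^ 2 * ((TQ eb (v * l)).card : ℝ) ≤ w ^ 2 * (2:ℝ) ^ ((3 / 2 + 3 * eb) * r) :=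
            mul_le_mul_of_nonneg_left hcardTQ hw0
        _ = _ := by
            rw [hw2, ← Real.rpow_add (by norm_num)]; congr 1; ring
    have a2 := hdec (3 / 2 - 7 * eb) (by unfold eb; norm_num)
    have a3 : ((2:ℝ) * K + 1) ^ 2 ≤ 9 * (K:ℝ) ^ (2:ℝ) := by
      rw [show (2:ℝ) = ((2:ℕ):ℝ) by norm_num, Real.rpow_natCast]
      push_cast
      nlinarith
    calc w ^ 2 * ((2 * K + 1) ^ 2 * (TQ eb (v * l)).card) = (2 * (K:ℝ) + 1) ^ 2 * (w ^ 2 * (TQ eb (v * l)).card) := by ring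
      _ ≤ (9 * (K:ℝ) ^ (2:ℝ)) * (K:ℝ) ^ (-(186 / 100 * (3 / 2 - 7 * eb))) :=
          mul_le_mul a3 (a1.trans a2) (by positivity) (by positivity)
      _ = 9 * (K:ℝ) ^ (2 - 186 / 100 * (3 / 2 - 7 * eb)) := by
          rw [mul_assoc, ← Real.rpow_add hK0]; congr 2
      _ ≤ 9 * (K:ℝ) ^ (-(485 / 1000 : ℝ)) := by
          apply mul_le_mul_of_nonneg_left _ (by norm_num)
          apply Real.rpow_le_rpow_of_exponent_le hK1
          unfold eb; norm_num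
  -- second
  have f2 : w ^ 2 * ((2 * K + 1) * ((TQ eb (v * l)).card * (2:ℝ) ^ ((h0 + 4 * eb) * r))) ≤
      3 * (K:ℝ) ^ (-(485 / 1000 : ℝ)) := by
    have hh0 := h0_le
    have a1 : w ^ 2 * ((TQ eb (v * l)).card * (2:ℝ) ^ ((h0 + 4 * eb) * r)) ≤
        (2:ℝ) ^ (-((3 / 2 - h0 - 11 * eb) * r)) := by
      calc w ^ 2 * ((TQ eb (v * l)).card * (2:ℝ) ^ ((h0 + 4 * eb) * r)) ≤
            w ^ 2 * ((2:ℝ) ^ ((3 / 2 + 3 * eb) * r) * (2:ℝ) ^ ((h0 + 4 * eb) * r)) := by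
            apply mul_le_mul_of_nonneg_left _ hw0
            exact mul_le_mul_of_nonneg_right hcardTQ (by positivity)
        _ = _ := by
            rw [hw2, ← Real.rpow_add (by norm_num), ← Real.rpow_add (by norm_num)]; congr 1; ring
    have a2 := hdec (3 / 2 - h0 - 11 * eb) (by unfold eb; linarith)
    have a3 : ((2:ℝ) * K + 1) ≤ 3 * (K:ℝ) ^ (1:ℝ) := by
      rw [Real.rpow_one]; linarith
    calc w ^ 2 * ((2 * K + 1) * ((TQ eb (v * l)).card * (2:ℝ) ^ ((h0 + 4 * eb) * r))) =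
          (2 * (K:ℝ) + 1) * (w ^ 2 * ((TQ eb (v * l)).card * (2:ℝ) ^ ((h0 + 4 * eb) * r))) := by ring
      _ ≤ (3 * (K:ℝ) ^ (1:ℝ)) * (K:ℝ) ^ (-(186 / 100 * (3 / 2 - h0 - 11 * eb))) :=
          mul_le_mul a3 (a1.trans a2) (by positivity) (by positivity)
      _ = 3 * (K:ℝ) ^ (1 - 186 / 100 * (3 / 2 - h0 - 11 * eb)) := by
          rw [mul_assoc, ← Real.rpow_add hK0]; congr 2
      _ ≤ 3 * (K:ℝ) ^ (-(485 / 1000 : ℝ)) := by
          apply mul_le_mul_of_nonneg_left _ (by norm_num)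
          apply Real.rpow_le_rpow_of_exponent_le hK1
          unfold eb; linarith
  -- third
  have hhe := hh_eb
  have f3 : w ^ 2 * (2 * K * BB eb (v * l)) ≤ 2 * (K:ℝ) ^ (-(485 / 1000 : ℝ)) := by
    have a2 := hdec (hh eb) (by unfold Pool.Agent.H24.FD.hh at hhe; linarith)
    calc w ^ 2 * (2 * K * BB eb (v * l)) = 2 * ((K:ℝ) ^ (1:ℝ) * (w ^ 2 * BB eb (v * l))) := by
          rw [Real.rpow_one]; ring
      _ ≤ 2 * ((K:ℝ) ^ (1:ℝ) * (K:ℝ) ^ (-(186 / 100 * hh eb))) := by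
          rw [hwBB]
          apply mul_le_mul_of_nonneg_left _ (by norm_num)
          exact mul_le_mul_of_nonneg_left a2 (by positivity)
      _ = 2 * (K:ℝ) ^ (1 - 186 / 100 * hh eb) := by rw [← Real.rpow_add hK0]; congr 2
      _ ≤ 2 * (K:ℝ) ^ (-(485 / 1000 : ℝ)) := by
          apply mul_le_mul_of_nonneg_left _ (by norm_num)
          apply Real.rpow_le_rpow_of_exponent_le hK1
          unfold Pool.Agent.H24.FD.hh at hhe
          linarith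
  -- fourth
  have f4 : w ^ 2 * (4 * K * (T * (1 + Real.log K)) * BB eb (v * l)) ≤
      4004 * Cd * (K:ℝ) ^ (-(485 / 1000 : ℝ)) := by
    have a1 : (2:ℝ) ^ (1 / 10000 * r) * (2:ℝ) ^ (-(hh eb * r)) = (2:ℝ) ^ (-((hh eb - 1 / 10000) * r)) := by
      rw [← Real.rpow_add (by norm_num)]; congr 1; ring
    have a2 := hdec (hh eb - 1 / 10000) (by unfold Pool.Agent.H24.FD.hh at hhe; linarith)
    have a3 := log_le_pow K hK
    have a4 : 0 ≤ Real.log K := Real.log_natCast_nonneg K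
    calc w ^ 2 * (4 * K * (T * (1 + Real.log K)) * BB eb (v * l)) =
          4 * Cd * ((K:ℝ) ^ (1:ℝ) * ((1 + Real.log K) * ((2:ℝ) ^ (1 / 10000 * r) * (w ^ 2 * BB eb (v * l))))) := by
          rw [Real.rpow_one, hTdef]; ring
      _ ≤ 4 * Cd * ((K:ℝ) ^ (1:ℝ) * ((1001 * (K:ℝ) ^ (1 / 1000 : ℝ)) * (K:ℝ) ^ (-(186 / 100 * (hh eb - 1 / 10000))))) := by
          rw [hwBB, a1]
          apply mul_le_mul_of_nonneg_left _ (by linarith)
          apply mul_le_mul_of_nonneg_left _ (by positivity)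
          exact mul_le_mul a3 a2 (by positivity) (by positivity)
      _ = 4004 * Cd * ((K:ℝ) ^ (1:ℝ) * ((K:ℝ) ^ (1 / 1000 : ℝ) * (K:ℝ) ^ (-(186 / 100 * (hh eb - 1 / 10000))))) := by ring
      _ = 4004 * Cd * (K:ℝ) ^ (1 + (1 / 1000 + -(186 / 100 * (hh eb - 1 / 10000)))) := by
          rw [← Real.rpow_add hK0, ← Real.rpow_add hK0]
      _ ≤ 4004 * Cd * (K:ℝ) ^ (-(485 / 1000 : ℝ)) := by
          apply mul_le_mul_of_nonneg_left _ (by linarith)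
          apply Real.rpow_le_rpow_of_exponent_le hK1
          unfold Pool.Agent.H24.FD.hh at hhe
          linarith
  have e5 : w ^ 2 * ((2 * K + 1) ^ 2 * (TQ eb (v * l)).card + (2 * K + 1) * ((TQ eb (v * l)).card *
      (2:ℝ) ^ ((h0 + 4 * eb) * ((v * l : ℕ) : ℝ))) + (2 * K + 4 * K * (T * (1 + Real.log K))) * BB eb (v * l)) =
      w ^ 2 * ((2 * K + 1) ^ 2 * (TQ eb (v * l)).card) +
      w ^ 2 * ((2 * K + 1) * ((TQ eb (v * l)).card * (2:ℝ) ^ ((h0 + 4 * eb) * r))) +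
      w ^ 2 * (2 * K * BB eb (v * l)) + w ^ 2 * (4 * K * (T * (1 + Real.log K)) * BB eb (v * l)) := by
    rw [hvl]; ring
  rw [e5]
  have : (14 + 4004 * Cd) * (K:ℝ) ^ (-(485 / 1000 : ℝ)) = 9 * (K:ℝ) ^ (-(485 / 1000 : ℝ)) +
      3 * (K:ℝ) ^ (-(485 / 1000 : ℝ)) + 2 * (K:ℝ) ^ (-(485 / 1000 : ℝ)) + 4004 * Cd * (K:ℝ) ^ (-(485 / 1000 : ℝ)) := by ring
  rw [this]
  linarith

end Pool.Agent.H93.FL
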