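import Pool.Agent.H93.FL.KB

/-! KB, H1, H2 in the literal forms of helper54 and helper13. -/

set_option autoImplicit false

open Finset

namespace Pool.Agent.H93.FL

open Pool.Agent.H93.BT Pool.Agent.H24.FD Pool.FD


/-- helper54's form of KB -/
theorem kbs (hMarg : MARGStmt) (hPFM : PFMStmt) (hVALS : VALSStmt) :
    ∃ l₀ : ℕ, ∀ l ≥ l₀, ∀ e ∈ HH l l, (∑ x ∈ range (2 ^ (l * l)), kc l l e x = 1) ∧
      ∀ D : ℝ, 1 ≤ D → D ≤ 2 ^ (l * l) → (∑ x ∈ range (2 ^ (l * l)), ∑ x' ∈ range (2 ^ (l * l)),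
        if |(x : ℝ) - x'| < D then kc l l e x * kc l l e x' else 0) ≤
          2 ^ (2 * l + 4) * (D / 2 ^ (l * l)) ^ (1 / 2 - 2 * eb) := by
  obtain ⟨l₁, hl₁⟩ := T1 eb (by unfold eb; norm_num)
  obtain ⟨l₂, hl₂⟩ := hMarg eb (by unfold eb; norm_num)
  refine ⟨l₁ + l₂, fun l hl e he => ?_⟩
  obtain ⟨a, b⟩ := kb hPFM hVALS (hl₁ l (by omega)) (hl₂ l (by omega)) he
  refine ⟨a, fun D hD hD2 => ?_⟩
  have h := b D hD hD2
  have h3 : (∑ x ∈ range (2 ^ (l * l)), ∑ x' ∈ range (2 ^ (l * l)),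
        if |(x : ℝ) - x'| < D then kc l l e x * kc l l e x' else 0) ≤
      5 * 2 ^ l * (D / 2 ^ (l * l)) ^ (4999 / 10000 : ℝ) := by
    convert h using 6
  refine h3.trans ?_
  have e1 : (1 / 2 - 2 * eb : ℝ) = 4999 / 10000 := by unfold eb; norm_num
  rw [e1]
  apply mul_le_mul_of_nonneg_right _ (by positivity)
  rw [pow_add, mul_comm 2 l, pow_mul]
  have : (1:ℝ) ≤ 2 ^ l := one_le_pow₀ (by norm_num)
  nlinarith

/-- H2 without a relation between `T` and `M` -/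
theorem h2' {l k T M : ℕ} (hl : 0 < l) (hP : PTB eb l) (hM : Marg eb l) (hT : 0 < T) :
    H2c (l * k) (Pool.Agent.H24.FD.pw l k) T M Pool.Agent.H24.FD.hh (25 * 2 ^ l * max 1 ((M:ℝ) / T)) (2 ^ (l * k) / T) := by
  classical
  by_cases hTM : T ≤ M
  · have hT' : (0:ℝ) < T := by exact_mod_cast hT
    have hM' : (T:ℝ) ≤ M := by exact_mod_cast hTM
    rw [max_eq_right (by rw [one_le_div hT']; exact hM')]
    exact h2 hl hP hM hT hTM
  · push Not at hTM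
    intro m hm D hD
    have hT' : (0:ℝ) < T := by exact_mod_cast hT
    have hmT : m ∈ bx0 T := by
      rw [bx0, mem_filter, bx, mem_product, mem_Ioo, mem_Ioo] at hm ⊢
      obtain ⟨⟨⟨a1, a2⟩, ⟨a3, a4⟩⟩, hne⟩ := hm
      exact ⟨⟨⟨by omega, by omega⟩, ⟨by omega, by omega⟩⟩, hne⟩
    have h := h2 (l := l) (k := k) (T := T) (M := T) hl hP hM hT le_rfl m hmT D hD
    rw [div_self hT'.ne', mul_one] at h
    refine h.trans ?_
    have hnm : 0 ≤ nm m := le_trans (abs_nonneg _) (le_max_left _ _)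
    have : (25:ℝ) * 2 ^ l ≤ 25 * 2 ^ l * max 1 ((M:ℝ) / T) :=
      le_mul_of_one_le_right (by positivity) (le_max_left _ _)
    exact mul_le_mul_of_nonneg_right this (by positivity)

/-- helper13's forms -/
theorem h1s (hMarg : MARGStmt) : ∃ l₀ : ℕ, ∀ l ≥ l₀, ∀ k u : ℕ, u ≤ k → ∀ κ : ℤ × ℤ, κ ≠ 0 →
    H1c (l * k) (l * u) (Pool.Agent.H24.FD.pw l k) κ Pool.Agent.H24.FD.hh (25 * 2 ^ l) (2 ^ (l * u)) := by
  obtain ⟨l₁, hl₁⟩ := T1 eb (by unfold eb; norm_num)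
  obtain ⟨l₂, hl₂⟩ := hMarg eb (by unfold eb; norm_num)
  exact ⟨l₁ + l₂ + 1, fun l hl k u hu κ hκ =>
    h1 (by omega) (hl₁ l (by omega)) (hl₂ l (by omega)) hu κ hκ⟩

theorem h2s (hMarg : MARGStmt) : ∃ l₀ : ℕ, ∀ l ≥ l₀, ∀ k T M : ℕ, 0 < T →
    H2c (l * k) (Pool.Agent.H24.FD.pw l k) T M Pool.Agent.H24.FD.hh (25 * 2 ^ l * max 1 ((M:ℝ) / T)) (2 ^ (l * k) / T) := by
  obtain ⟨l₁, hl₁⟩ := T1 eb (by unfold eb; norm_num)
  obtain ⟨l₂, hl₂⟩ := hMarg eb (by unfold eb; norm_num)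
  exact ⟨l₁ + l₂ + 1, fun l hl k T M hT =>
    h2' (by omega) (hl₁ l (by omega)) (hl₂ l (by omega)) hT⟩

end Pool.Agent.H93.FL
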