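import Pool.Agent.H93.FL.SB

/-! Row HPS. -/

set_option autoImplicit false

open Finset

namespace Pool.Agent.H93.FL

open Pool.Agent.H93.BT Pool.Agent.H24.FD Pool.FD

lemma log13 : Real.logb 2 13 ≤ 840 / 227 := by
  have h : Real.log ((13:ℝ) ^ 227) ≤ Real.log ((16:ℝ) ^ 210) :=
    Real.log_le_log (by norm_num) (by norm_num)
  have h16 : Real.log 16 = 4 * Real.log 2 := by
    rw [show (16:ℝ) = 2 ^ 4 by norm_num, Real.log_pow]; norm_num
  rw [Real.log_pow, Real.log_pow, h16] at h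
  have hl2 : 0 < Real.log 2 := Real.log_pos (by norm_num)
  rw [Real.logb, div_le_iff₀ hl2]
  push_cast at h
  linarith

lemma log13' : 37 / 10 ≤ Real.logb 2 13 := by
  have h : Real.log ((2:ℝ) ^ 37) ≤ Real.log ((13:ℝ) ^ 10) :=
    Real.log_le_log (by norm_num) (by norm_num)
  rw [Real.log_pow, Real.log_pow] at h
  have hl2 : 0 < Real.log 2 := Real.log_pos (by norm_num)
  rw [Real.logb, le_div_iff₀ hl2]
  push_cast at h
  linarith

lemma hh_eb : Pool.Agent.H24.FD.hh + 1 / 7000 ≤ hh eb := by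
  unfold hh Pool.Agent.H24.FD.hh eb
  have := log13
  linarith

/-- SB with the exponent `h = 799/1000` -/
theorem SBh {l : ℕ} (hl : 0 < l) (hP : PTB eb l) (hM : Marg eb l) (u : ℕ) (t1 t2 D : ℝ)
    (hθ : 0 < max |t1| |t2|) :
    WP eb l u t1 t2 D ≤ 25 * 2 ^ l * (max 1 (D / max |t1| |t2|) / 2 ^ (l * u)) ^ Pool.Agent.H24.FD.hh := by
  have hε : (0:ℝ) ≤ eb := by unfold eb; norm_num
  have h1 : Pool.Agent.H24.FD.hh ≤ hh eb := by have := hh_eb; linarith
  have h0 : (0:ℝ) ≤ Pool.Agent.H24.FD.hh := by unfold Pool.Agent.H24.FD.hh; norm_num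
  have h2l : (1:ℝ) ≤ 2 ^ l := one_le_pow₀ (by norm_num)
  set x : ℝ := max 1 (D / max |t1| |t2|) / 2 ^ (l * u) with hx
  have hx0 : 0 < x := by
    rw [hx]; apply div_pos _ (by positivity)
    exact lt_of_lt_of_le one_pos (le_max_left _ _)
  by_cases hx1 : x ≤ 1
  · refine (SB' hε hl hP hM (h0.trans h1) u t1 t2 D hθ).trans ?_
    rw [← hx]
    apply mul_le_mul_of_nonneg_left _ (by positivity)
    exact Real.rpow_le_rpow_of_exponent_ge hx0 hx1 h1
  · push Not at hx1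
    calc WP eb l u t1 t2 D ≤ 1 := WP_le_one eb hM u t1 t2 D
      _ ≤ 25 * 2 ^ l * 1 := by linarith
      _ ≤ _ := mul_le_mul_of_nonneg_left (Real.one_le_rpow hx1.le h0) (by positivity)

lemma geom_le (J : ℕ) : ∑ j ∈ range J, (7 / 8 : ℝ) ^ j ≤ 8 := by
  have : ∀ J : ℕ, ∑ j ∈ range J, (7 / 8 : ℝ) ^ j = 8 - 8 * (7 / 8) ^ J := by
    intro J
    induction J with
    | zero => simp
    | succ J ih => rw [sum_range_succ, ih, pow_succ]; ring
  rw [this J]
  have : (0:ℝ) ≤ (7 / 8) ^ J := by positivity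
  linarith

lemma rho_le : (2:ℝ) ^ (Pool.Agent.H24.FD.hh - 1) ≤ 7 / 8 := by
  have h1 : (2:ℝ) ^ (Pool.Agent.H24.FD.hh - 1) ≤ (2:ℝ) ^ (-(1 / 5) : ℝ) := by
    apply Real.rpow_le_rpow_of_exponent_le (by norm_num)
    unfold Pool.Agent.H24.FD.hh; norm_num
  refine h1.trans ?_
  rw [Real.rpow_neg (by norm_num)]
  have h2 : (8 / 7 : ℝ) ≤ (2:ℝ) ^ (1 / 5 : ℝ) := by
    have h3 : (8 / 7 : ℝ) = (((8 / 7 : ℝ)) ^ (5:ℕ)) ^ (1 / 5 : ℝ) := by
      rw [← Real.rpow_natCast, ← Real.rpow_mul (by norm_num)]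
      norm_num
    rw [h3]
    apply Real.rpow_le_rpow (by norm_num) (by norm_num) (by norm_num)
  calc ((2:ℝ) ^ (1 / 5 : ℝ))⁻¹ ≤ (8 / 7 : ℝ)⁻¹ := inv_anti₀ (by norm_num) h2
    _ = 7 / 8 := by norm_num

/-- layers -/
lemma layers (x : ℝ) (hx : 0 ≤ x) (J : ℕ) (hJ : x < 2 ^ J) :
    1 / max 1 x ≤ ∑ j ∈ range J, (1 / 2 : ℝ) ^ j * (if x < 2 ^ (j + 1) then 1 else 0) ∨
      J = 0 := by
  rcases Nat.eq_zero_or_pos J with h0 | hJ0
  · right; exact h0
  left
  have hnn : ∀ j ∈ range J, 0 ≤ (1 / 2 : ℝ) ^ j * (if x < 2 ^ (j + 1) then 1 else 0) := by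
    intro j _; split_ifs <;> positivity
  by_cases h1 : x < 1
  · have h0 : (0:ℕ) ∈ range J := mem_range.2 hJ0
    refine le_trans ?_ (single_le_sum hnn h0)
    rw [max_eq_left h1.le, if_pos (by norm_num; linarith)]
    norm_num
  · push Not at h1
    have hex : ∃ j, x < 2 ^ (j + 1) := ⟨J - 1, by rwa [Nat.sub_add_cancel hJ0]⟩
    let j := Nat.find hex
    have hj : x < 2 ^ (j + 1) := Nat.find_spec hex
    have hjr : j ≤ J - 1 := Nat.find_min' hex (by rwa [Nat.sub_add_cancel hJ0])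
    have hlow : (2:ℝ) ^ j ≤ x := by
      rcases Nat.eq_zero_or_pos j with h | h
      · rw [h]; simpa using h1
      · have := Nat.find_min hex (m := j - 1) (by omega)
        push Not at this
        rwa [Nat.sub_add_cancel h] at this
    refine le_trans ?_ (single_le_sum hnn (mem_range.2 (by omega : j < J)))
    rw [if_pos hj, mul_one, max_eq_right h1, one_div_pow]
    exact one_div_le_one_div_of_le (by positivity) hlow

/-- the sum over pairs with the weight `1/max 1 |.|` -/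
noncomputable def LS (l u : ℕ) (t1 t2 : ℝ) : ℝ :=
  ∑ U : Fin u → Fin l → Fin 3, ∑ U' : Fin u → Fin l → Fin 3,
    PT eb U * PT eb U' / max 1 |t1 * ((VN U : ℝ) - VN U') + t2 * ((VA U : ℝ) - VA U')|

lemma LS_le {l : ℕ} (u : ℕ) (t1 t2 : ℝ) (c : ℝ) (hc : 0 ≤ c)
    (h : ∀ j : ℕ, WP eb l u t1 t2 (2 ^ (j + 1)) ≤ c * ((2:ℝ) ^ j) ^ Pool.Agent.H24.FD.hh) :
    LS l u t1 t2 ≤ 8 * c := by
  classical
  obtain ⟨J, hJ⟩ := pow_unbounded_of_one_lt (∑ U : Fin u → Fin l → Fin 3, ∑ U' : Fin u → Fin l → Fin 3,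
    |t1 * ((VN U : ℝ) - VN U') + t2 * ((VA U : ℝ) - VA U')|) (show (1:ℝ) < 2 by norm_num)
  have hlt : ∀ U U' : Fin u → Fin l → Fin 3,
      |t1 * ((VN U : ℝ) - VN U') + t2 * ((VA U : ℝ) - VA U')| < 2 ^ (J + 1) := by
    intro U U'
    have h1 : |t1 * ((VN U : ℝ) - VN U') + t2 * ((VA U : ℝ) - VA U')| ≤
        ∑ U' : Fin u → Fin l → Fin 3, |t1 * ((VN U : ℝ) - VN U') + t2 * ((VA U : ℝ) - VA U')| :=
      single_le_sum (f := fun U' : Fin u → Fin l → Fin 3 => |t1 * ((VN U : ℝ) - VN U') + t2 * ((VA U : ℝ) - VA U')|)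
        (fun _ _ => abs_nonneg _) (mem_univ U')
    have h2 : ∑ U' : Fin u → Fin l → Fin 3, |t1 * ((VN U : ℝ) - VN U') + t2 * ((VA U : ℝ) - VA U')| ≤
        ∑ U : Fin u → Fin l → Fin 3, ∑ U' : Fin u → Fin l → Fin 3,
          |t1 * ((VN U : ℝ) - VN U') + t2 * ((VA U : ℝ) - VA U')| :=
      single_le_sum (f := fun U : Fin u → Fin l → Fin 3 => ∑ U' : Fin u → Fin l → Fin 3,
        |t1 * ((VN U : ℝ) - VN U') + t2 * ((VA U : ℝ) - VA U')|)
        (fun _ _ => sum_nonneg fun _ _ => abs_nonneg _) (mem_univ U)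
    have h3 : (2:ℝ) ^ J ≤ 2 ^ (J + 1) := pow_le_pow_right₀ (by norm_num) (by omega)
    linarith
  unfold LS
  calc _ ≤ ∑ U : Fin u → Fin l → Fin 3, ∑ U' : Fin u → Fin l → Fin 3, ∑ j ∈ range (J + 1),
        (1 / 2 : ℝ) ^ j * (if |t1 * ((VN U : ℝ) - VN U') + t2 * ((VA U : ℝ) - VA U')| < 2 ^ (j + 1)
          then PT eb U * PT eb U' else 0) := by
        apply sum_le_sum; intro U _; apply sum_le_sum; intro U' _
        have h1 := (layers _ (abs_nonneg _) (J + 1) (hlt U U')).resolve_right (by omega)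
        have hpp : 0 ≤ PT eb U * PT eb U' := mul_nonneg (PT_nonneg _ _) (PT_nonneg _ _)
        calc PT eb U * PT eb U' / max 1 |t1 * ((VN U : ℝ) - VN U') + t2 * ((VA U : ℝ) - VA U')|
            = PT eb U * PT eb U' * (1 / max 1 |t1 * ((VN U : ℝ) - VN U') + t2 * ((VA U : ℝ) - VA U')|) := by
              rw [mul_one_div]
          _ ≤ PT eb U * PT eb U' * _ := mul_le_mul_of_nonneg_left h1 hpp
          _ = _ := by
              rw [mul_sum]
              apply sum_congr rfl; intro j _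
              split_ifs
              · ring
              · ring
    _ = ∑ j ∈ range (J + 1), (1 / 2 : ℝ) ^ j * WP eb l u t1 t2 (2 ^ (j + 1)) := by
        unfold WP
        have e1 : ∀ U : Fin u → Fin l → Fin 3, ∑ U' : Fin u → Fin l → Fin 3, ∑ j ∈ range (J + 1),
            (1 / 2 : ℝ) ^ j * (if |t1 * ((VN U : ℝ) - VN U') + t2 * ((VA U : ℝ) - VA U')| < 2 ^ (j + 1)
              then PT eb U * PT eb U' else 0) = ∑ j ∈ range (J + 1), ∑ U' : Fin u → Fin l → Fin 3,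
            (1 / 2 : ℝ) ^ j * (if |t1 * ((VN U : ℝ) - VN U') + t2 * ((VA U : ℝ) - VA U')| < 2 ^ (j + 1)
              then PT eb U * PT eb U' else 0) := fun U => sum_comm
        simp only [e1]
        rw [sum_comm]
        apply sum_congr rfl; intro j _
        rw [mul_sum]
        apply sum_congr rfl; intro U _
        rw [mul_sum]
    _ ≤ ∑ j ∈ range (J + 1), c * (7 / 8 : ℝ) ^ j := by
        apply sum_le_sum; intro j _
        have h4 : (1 / 2 : ℝ) ^ j * ((2:ℝ) ^ j) ^ Pool.Agent.H24.FD.hh ≤ (7 / 8 : ℝ) ^ j := by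
          have e : (1 / 2 : ℝ) ^ j * ((2:ℝ) ^ j) ^ Pool.Agent.H24.FD.hh = ((2:ℝ) ^ (Pool.Agent.H24.FD.hh - 1)) ^ j := by
            rw [← Real.rpow_natCast 2 j, ← Real.rpow_mul (by norm_num), ← Real.rpow_natCast _ j,
              ← Real.rpow_natCast _ j, one_div, Real.inv_rpow (by norm_num), ← Real.rpow_neg (by norm_num),
              ← Real.rpow_add (by norm_num), ← Real.rpow_mul (by norm_num)]
            congr 1; ring
          rw [e]
          exact pow_le_pow_left₀ (Real.rpow_nonneg (by norm_num) _) rho_le _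
        calc (1 / 2 : ℝ) ^ j * WP eb l u t1 t2 (2 ^ (j + 1)) ≤
            (1 / 2 : ℝ) ^ j * (c * ((2:ℝ) ^ j) ^ Pool.Agent.H24.FD.hh) :=
              mul_le_mul_of_nonneg_left (h j) (by positivity)
          _ = c * ((1 / 2 : ℝ) ^ j * ((2:ℝ) ^ j) ^ Pool.Agent.H24.FD.hh) := by ring
          _ ≤ c * (7 / 8 : ℝ) ^ j := mul_le_mul_of_nonneg_left h4 hc
    _ = c * ∑ j ∈ range (J + 1), (7 / 8 : ℝ) ^ j := by rw [mul_sum]
    _ ≤ c * 8 := mul_le_mul_of_nonneg_left (geom_le _) hc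
    _ = 8 * c := by ring

/-- transfer of sums against `pw` -/
lemma pw_sum (l u : ℕ) (g : ℕ → ℕ → ℝ) :
    ∑ n ∈ range (2 ^ (l * u)), ∑ a ∈ range (2 ^ (l * u)), Pool.Agent.H24.FD.pw l u n a * g n a =
      ∑ U : Fin u → Fin l → Fin 3, PT eb U * g (VN U) (VA U) := by
  classical
  unfold Pool.Agent.H24.FD.pw
  have e1 : ∀ n ∈ range (2 ^ (l * u)), ∑ a ∈ range (2 ^ (l * u)),
      (∑ U : Fin u → Fin l → Fin 3, if VN U = n ∧ VA U = a then PT eb U else 0) * g n a =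
      ∑ U : Fin u → Fin l → Fin 3, if VN U = n then PT eb U * g n (VA U) else 0 := by
    intro n _
    simp only [sum_mul]
    rw [sum_comm]
    apply sum_congr rfl; intro U _
    by_cases h : VN U = n
    · rw [if_pos h]
      rw [sum_eq_single (VA U)]
      · rw [if_pos ⟨h, rfl⟩]
      · intro a _ ha
        rw [if_neg (fun h2 => ha h2.2.symm), zero_mul]
      · intro h2
        exact absurd (mem_range.2 (H48.VA_lt U)) h2
    · rw [if_neg h]
      apply sum_eq_zero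
      intro a _
      rw [if_neg (fun h2 => h h2.1), zero_mul]
  rw [sum_congr rfl e1, sum_comm]
  apply sum_congr rfl; intro U _
  rw [sum_eq_single (VN U)]
  · rw [if_pos rfl]
  · intro n _ hn
    rw [if_neg (fun h => hn h.symm)]
  · intro h2
    exact absurd (mem_range.2 (H48.VN_lt U)) h2

lemma pw_sum2 (l u : ℕ) (Φ : ℕ → ℕ → ℕ → ℕ → ℝ) :
    ∑ n ∈ range (2 ^ (l * u)), ∑ a ∈ range (2 ^ (l * u)), ∑ n' ∈ range (2 ^ (l * u)), ∑ a' ∈ range (2 ^ (l * u)),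
      Pool.Agent.H24.FD.pw l u n a * Pool.Agent.H24.FD.pw l u n' a' * Φ n a n' a' =
      ∑ U : Fin u → Fin l → Fin 3, ∑ U' : Fin u → Fin l → Fin 3,
        PT eb U * PT eb U' * Φ (VN U) (VA U) (VN U') (VA U') := by
  have e1 : ∀ n ∈ range (2 ^ (l * u)), ∀ a ∈ range (2 ^ (l * u)), ∑ n' ∈ range (2 ^ (l * u)), ∑ a' ∈ range (2 ^ (l * u)),
      Pool.Agent.H24.FD.pw l u n a * Pool.Agent.H24.FD.pw l u n' a' * Φ n a n' a' =
      Pool.Agent.H24.FD.pw l u n a * ∑ U' : Fin u → Fin l → Fin 3, PT eb U' * Φ n a (VN U') (VA U') := by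
    intro n _ a _
    rw [← pw_sum l u (fun n' a' => Φ n a n' a'), mul_sum]
    apply sum_congr rfl; intro n' _
    rw [mul_sum]
    apply sum_congr rfl; intro a' _
    ring
  rw [sum_congr rfl fun n hn => sum_congr rfl fun a ha => e1 n hn a ha]
  rw [pw_sum l u (fun n a => ∑ U' : Fin u → Fin l → Fin 3, PT eb U' * Φ n a (VN U') (VA U'))]
  apply sum_congr rfl; intro U _
  rw [mul_sum]
  apply sum_congr rfl; intro U' _
  ring

lemma pw_nonneg (l u n a : ℕ) : 0 ≤ Pool.Agent.H24.FD.pw l u n a := by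
  unfold Pool.Agent.H24.FD.pw
  apply sum_nonneg; intro U _
  split_ifs
  · exact PT_nonneg _ _
  · exact le_rfl

theorem int_phi_le (hphi : PHIStmt) (l u : ℕ) (t1 t2 : ℝ) :
    ∫ y in (0:ℝ)..1, ‖phi (l * u) (Pool.Agent.H24.FD.pw l u) (y * t1) (y * t2)‖ ^ 2 ≤ LS l u t1 t2 := by
  refine (hphi (l * u) _ (pw_nonneg l u) t1 t2).trans (le_of_eq ?_)
  unfold LS
  have := pw_sum2 l u (fun n a n' a' => (max 1 |t1 * ((n:ℝ) - n') + t2 * ((a:ℝ) - a')|)⁻¹)
  simp only [← div_eq_mul_inv] at this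
  exact this

theorem hps (hphi : PHIStmt) (hMarg : MARGStmt) : HPSStmt := by
  obtain ⟨l₁, hl₁⟩ := T1 eb (by unfold eb; norm_num)
  obtain ⟨l₂, hl₂⟩ := hMarg eb (by unfold eb; norm_num)
  refine ⟨800, by norm_num, l₁ + l₂ + 1, fun l hl u Kq hKq => ?_⟩
  have hP : PTB eb l := hl₁ l (by omega)
  have hM : Marg eb l := hl₂ l (by omega)
  have hl0 : 0 < l := by omega
  have h0 : (0:ℝ) ≤ Pool.Agent.H24.FD.hh := by unfold Pool.Agent.H24.FD.hh; norm_num
  have h1 : Pool.Agent.H24.FD.hh ≤ 1 := by unfold Pool.Agent.H24.FD.hh; norm_num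
  have hfac : (1:ℝ) ≤ (l:ℝ) * u + l + 4 + Real.logb 2 Kq := by
    have : 0 ≤ Real.logb 2 Kq := Real.logb_nonneg (by norm_num) hKq
    have : (0:ℝ) ≤ (l:ℝ) * u := by positivity
    have : (0:ℝ) ≤ (l:ℝ) := by positivity
    linarith
  set X : ℝ := (2:ℝ) ^ (-(Pool.Agent.H24.FD.hh * ((l:ℝ) * u))) with hX
  have hX0 : 0 < X := Real.rpow_pos_of_pos (by norm_num) _
  have hXe : ∀ z : ℝ, 0 ≤ z → (z / 2 ^ (l * u)) ^ Pool.Agent.H24.FD.hh = z ^ Pool.Agent.H24.FD.hh * X := by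
    intro z hz
    rw [Real.div_rpow hz (by positivity), hX, div_eq_mul_inv]
    congr 1
    rw [← Real.rpow_natCast, ← Real.rpow_mul (by norm_num), ← Real.rpow_neg (by norm_num)]
    congr 1; push_cast; ring
  have hA : 800 * 2 ^ l * X ≤ 800 * 2 ^ l * ((l:ℝ) * u + l + 4 + Real.logb 2 Kq) * X := by
    apply mul_le_mul_of_nonneg_right _ hX0.le
    exact le_mul_of_one_le_right (by positivity) hfac
  refine ⟨fun t1 t2 ht _ => ?_, fun t1 t2 ht ht2 => ?_⟩
  · refine ((int_phi_le hphi l u t1 t2).trans ?_).trans hA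
    have hT : 0 < max |t1| |t2| := by linarith
    refine (LS_le u t1 t2 (25 * 2 ^ l * 4 * X) (by positivity) fun j => ?_).trans (le_of_eq (by ring))
    refine (SBh hl0 hP hM u t1 t2 _ hT).trans ?_
    rw [hXe _ (by positivity)]
    have h2 : max 1 ((2:ℝ) ^ (j + 1) / max |t1| |t2|) ≤ 4 * 2 ^ j := by
      apply max_le
      · have : (1:ℝ) ≤ 2 ^ j := one_le_pow₀ (by norm_num)
        linarith
      · rw [div_le_iff₀ hT, pow_succ]
        have : (0:ℝ) < 2 ^ j := by positivity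
        nlinarith
    have h3 : (max 1 ((2:ℝ) ^ (j + 1) / max |t1| |t2|)) ^ Pool.Agent.H24.FD.hh ≤ 4 * ((2:ℝ) ^ j) ^ Pool.Agent.H24.FD.hh := by
      calc _ ≤ (4 * (2:ℝ) ^ j) ^ Pool.Agent.H24.FD.hh := Real.rpow_le_rpow (by positivity) h2 h0
        _ = (4:ℝ) ^ Pool.Agent.H24.FD.hh * ((2:ℝ) ^ j) ^ Pool.Agent.H24.FD.hh := Real.mul_rpow (by norm_num) (by positivity)
        _ ≤ 4 * ((2:ℝ) ^ j) ^ Pool.Agent.H24.FD.hh := by
            apply mul_le_mul_of_nonneg_right _ (by positivity)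
            calc (4:ℝ) ^ Pool.Agent.H24.FD.hh ≤ (4:ℝ) ^ (1:ℝ) := Real.rpow_le_rpow_of_exponent_le (by norm_num) h1
              _ = 4 := Real.rpow_one _
    calc 25 * 2 ^ l * ((max 1 ((2:ℝ) ^ (j + 1) / max |t1| |t2|)) ^ Pool.Agent.H24.FD.hh * X)
        ≤ 25 * 2 ^ l * (4 * ((2:ℝ) ^ j) ^ Pool.Agent.H24.FD.hh * X) := by
          apply mul_le_mul_of_nonneg_left _ (by positivity)
          exact mul_le_mul_of_nonneg_right h3 hX0.le
      _ = 25 * 2 ^ l * 4 * X * ((2:ℝ) ^ j) ^ Pool.Agent.H24.FD.hh := by ring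
  · set T := max |t1| |t2| with hTdef
    have hTh : 0 < T ^ (-Pool.Agent.H24.FD.hh) := Real.rpow_pos_of_pos ht _
    refine ((int_phi_le hphi l u t1 t2).trans ?_).trans (mul_le_mul_of_nonneg_right hA hTh.le)
    refine (LS_le u t1 t2 (25 * 2 ^ l * 2 * X * T ^ (-Pool.Agent.H24.FD.hh)) (by positivity) fun j => ?_).trans ?_
    · refine (SBh hl0 hP hM u t1 t2 _ ht).trans ?_
      rw [hXe _ (by positivity), ← hTdef]
      have h2 : max 1 ((2:ℝ) ^ (j + 1) / T) = 2 * 2 ^ j * T⁻¹ := by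
        rw [max_eq_right]
        · rw [pow_succ, div_eq_mul_inv]; ring
        · rw [le_div_iff₀ ht, pow_succ]
          have : (1:ℝ) ≤ 2 ^ j := one_le_pow₀ (by norm_num)
          linarith
      rw [h2]
      have h3 : (2 * 2 ^ j * T⁻¹) ^ Pool.Agent.H24.FD.hh ≤ 2 * ((2:ℝ) ^ j) ^ Pool.Agent.H24.FD.hh * T ^ (-Pool.Agent.H24.FD.hh) := by
        rw [Real.mul_rpow (by positivity) (by positivity), Real.mul_rpow (by norm_num) (by positivity),
          Real.inv_rpow ht.le, Real.rpow_neg ht.le]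
        apply mul_le_mul_of_nonneg_right _ (by positivity)
        apply mul_le_mul_of_nonneg_right _ (by positivity)
        calc (2:ℝ) ^ Pool.Agent.H24.FD.hh ≤ (2:ℝ) ^ (1:ℝ) := Real.rpow_le_rpow_of_exponent_le (by norm_num) h1
          _ = 2 := Real.rpow_one _
      calc 25 * 2 ^ l * ((2 * 2 ^ j * T⁻¹) ^ Pool.Agent.H24.FD.hh * X)
          ≤ 25 * 2 ^ l * (2 * ((2:ℝ) ^ j) ^ Pool.Agent.H24.FD.hh * T ^ (-Pool.Agent.H24.FD.hh) * X) := by
            apply mul_le_mul_of_nonneg_left _ (by positivity)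
            exact mul_le_mul_of_nonneg_right h3 hX0.le
        _ = 25 * 2 ^ l * 2 * X * T ^ (-Pool.Agent.H24.FD.hh) * ((2:ℝ) ^ j) ^ Pool.Agent.H24.FD.hh := by ring
    · have : 0 ≤ 2 ^ l * X * T ^ (-Pool.Agent.H24.FD.hh) := by positivity
      nlinarith

end Pool.Agent.H93.FL
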