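import Pool.Agent.H93.FL.Law
import Pool.Agent.H48.FD.EPA
import Pool.Agent.H24.FD.P3

/-! Flat strings and transfer of pair sums. -/

set_option autoImplicit false

open Finset

namespace Pool.Agent.H93.FL

open Pool.Agent.H93.BT Pool.Agent.H24.FD

/-- the string of bits of a string of macro-digits -/
def flat {l u : ℕ} (U : Fin u → Fin l → Fin 3) : Fin (u * l) → Fin 3 :=
  fun x => U (finProdFinEquiv.symm x).1 (finProdFinEquiv.symm x).2

lemma flat_inj {l u : ℕ} : Function.Injective (flat (l := l) (u := u)) := by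
  intro U U' h
  funext j i
  have := congrFun h (finProdFinEquiv (j, i))
  simpa [flat] using this

lemma sum_flat {l u : ℕ} (U : Fin u → Fin l → Fin 3) (f : ℕ → Fin 3 → ℤ) :
    ∑ x : Fin (u * l), f x (flat U x) = ∑ j : Fin u, ∑ i : Fin l, f (i + l * j) (U j i) := by
  rw [← finProdFinEquiv.sum_comp, Fintype.sum_prod_type]
  apply sum_congr rfl
  intro j _
  apply sum_congr rfl
  intro i _
  have h1 : flat U (finProdFinEquiv (j, i)) = U j i := by
    unfold flat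
    rw [Equiv.symm_apply_apply]
  rw [h1]
  rfl

lemma XV_N {l u : ℕ} (U : Fin u → Fin l → Fin 3) : XV (1,0) (flat U) = VN U := by
  unfold XV
  rw [sum_flat U (fun x s => 2 ^ x * kv (1,0) s)]
  unfold VN vN
  push_cast
  apply sum_congr rfl
  intro j _
  rw [mul_sum]
  apply sum_congr rfl
  intro i _
  rw [pow_add, pow_mul, mul_comm ((2:ℤ) ^ (i:ℕ)), mul_assoc]
  congr 2
  have : ∀ s : Fin 3, kv (1,0) s = if s = 2 then (1:ℤ) else 0 := by decide
  exact this _

lemma XV_A {l u : ℕ} (U : Fin u → Fin l → Fin 3) : XV (0,1) (flat U) = VA U := by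
  unfold XV
  rw [sum_flat U (fun x s => 2 ^ x * kv (0,1) s)]
  unfold VA vA
  push_cast
  apply sum_congr rfl
  intro j _
  rw [mul_sum]
  apply sum_congr rfl
  intro i _
  rw [pow_add, pow_mul, mul_comm ((2:ℤ) ^ (i:ℕ)), mul_assoc]
  congr 2
  have : ∀ s : Fin 3, kv (0,1) s = if s = 0 then (0:ℤ) else 1 := by decide
  exact this _

lemma cnt_flat {l u : ℕ} (c : Fin 3) (U : Fin u → Fin l → Fin 3) : cnt c (flat U) = ∑ j, cn c (U j) := by
  unfold cnt cn
  have h := sum_flat U (fun _ s => if s = c then (1:ℤ) else 0)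
  have e1 : (((univ.filter fun i => flat U i = c).card : ℕ) : ℤ) = ∑ x : Fin (u * l), (if flat U x = c then (1:ℤ) else 0) := by
    rw [card_filter]; push_cast; rfl
  have e2 : ((∑ j, (univ.filter fun i => U j i = c).card : ℕ) : ℤ) = ∑ j : Fin u, ∑ i : Fin l, (if U j i = c then (1:ℤ) else 0) := by
    push_cast
    apply sum_congr rfl
    intro j _
    rw [card_filter]; push_cast; rfl
  have : (((univ.filter fun i => flat U i = c).card : ℕ) : ℤ) = ((∑ j, (univ.filter fun i => U j i = c).card : ℕ) : ℤ) := by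
    rw [e1, e2]; exact h
  exact_mod_cast this

lemma flat_TQ {ε : ℝ} {l u : ℕ} (U : Fin u → Fin l → Fin 3) (h : ∀ j, typ ε (U j)) :
    flat U ∈ TQ ε (u * l) := by
  rw [mem_TQ, cnt_flat, cnt_flat, cnt_flat]
  have hb : ∀ j, (cn 2 (U j) : ℝ) ≤ (1 / 2 + ε) * l ∧ (cn 1 (U j) : ℝ) ≤ (1 / 4 + ε) * l ∧
      (cn 0 (U j) : ℝ) ≤ (1 / 4 + 2 * ε) * l := by
    intro j
    obtain ⟨h1, h2⟩ := h j
    unfold typN at h1
    rw [abs_le] at h1 h2
    have h3 : (cn 0 (U j) : ℝ) + cn 1 (U j) + cn 2 (U j) = l := by exact_mod_cast cn_sum (U j)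
    refine ⟨by linarith [h1.2], by linarith [h2.2], by linarith [h1.1, h2.1]⟩
  push_cast
  refine ⟨?_, ?_, ?_⟩
  · calc ∑ j, (cn 0 (U j) : ℝ) ≤ ∑ _j : Fin u, (1 / 4 + 2 * ε) * (l:ℝ) := sum_le_sum fun j _ => (hb j).2.2
      _ = _ := by rw [sum_const, card_univ, Fintype.card_fin, nsmul_eq_mul]; ring
  · calc ∑ j, (cn 1 (U j) : ℝ) ≤ ∑ _j : Fin u, (1 / 4 + ε) * (l:ℝ) := sum_le_sum fun j _ => (hb j).2.1
      _ = _ := by rw [sum_const, card_univ, Fintype.card_fin, nsmul_eq_mul]; ring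
  · calc ∑ j, (cn 2 (U j) : ℝ) ≤ ∑ _j : Fin u, (1 / 2 + ε) * (l:ℝ) := sum_le_sum fun j _ => (hb j).1
      _ = _ := by rw [sum_const, card_univ, Fintype.card_fin, nsmul_eq_mul]; ring

lemma PT_zero {ε : ℝ} {l u : ℕ} (U : Fin u → Fin l → Fin 3) (h : ¬ ∀ j, typ ε (U j)) : PT ε U = 0 := by
  push Not at h
  obtain ⟨j, hj⟩ := h
  unfold PT
  apply prod_eq_zero (mem_univ j)
  unfold pT
  rw [if_neg hj]

open Classical in
/-- transfer of a pair sum to a count of pairs of strings -/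
lemma pair_transfer {ε : ℝ} {l u : ℕ} (w : ℝ) (hw : ∀ U : Fin u → Fin l → Fin 3, PT ε U ≤ w)
    (P : (Fin (u * l) → Fin 3) → (Fin (u * l) → Fin 3) → Prop) :
    ∑ U : Fin u → Fin l → Fin 3, ∑ U' : Fin u → Fin l → Fin 3,
      (if P (flat U) (flat U') then PT ε U * PT ε U' else 0) ≤
    w ^ 2 * (((TQ ε (u * l) ×ˢ TQ ε (u * l)).filter fun p => P p.1 p.2).card : ℝ) := by
  have hw0 : 0 ≤ w ∨ IsEmpty (Fin u → Fin l → Fin 3) := by
    by_cases h : IsEmpty (Fin u → Fin l → Fin 3)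
    · right; exact h
    · left
      rw [not_isEmpty_iff] at h
      obtain ⟨U⟩ := h
      exact (PT_nonneg ε U).trans (hw U)
  rcases hw0 with hw0 | hE
  swap
  · rw [univ_eq_empty, sum_empty]; positivity
  rw [← Fintype.sum_prod_type (f := fun p : (Fin u → Fin l → Fin 3) × (Fin u → Fin l → Fin 3) =>
    if P (flat p.1) (flat p.2) then PT ε p.1 * PT ε p.2 else 0)]
  have h1 : ∀ p : (Fin u → Fin l → Fin 3) × (Fin u → Fin l → Fin 3),
      (if P (flat p.1) (flat p.2) then PT ε p.1 * PT ε p.2 else 0) ≤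
      if (flat p.1, flat p.2) ∈ ((TQ ε (u * l) ×ˢ TQ ε (u * l)).filter fun p => P p.1 p.2) then w ^ 2 else 0 := by
    intro p
    by_cases hP : P (flat p.1) (flat p.2)
    · rw [if_pos hP]
      by_cases ha : ∀ j, typ ε (p.1 j)
      · by_cases hb : ∀ j, typ ε (p.2 j)
        · rw [if_pos]
          · rw [sq]; exact mul_le_mul (hw _) (hw _) (PT_nonneg _ _) hw0
          · rw [mem_filter, mem_product]
            exact ⟨⟨flat_TQ _ ha, flat_TQ _ hb⟩, hP⟩
        · rw [PT_zero p.2 hb, mul_zero]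
          split_ifs <;> positivity
      · rw [PT_zero p.1 ha, zero_mul]
        split_ifs <;> positivity
    · rw [if_neg hP]
      split_ifs <;> positivity
  refine (sum_le_sum fun p _ => h1 p).trans ?_
  rw [← sum_filter, sum_const, nsmul_eq_mul, mul_comm]
  apply mul_le_mul_of_nonneg_left _ (by positivity)
  have : ((univ.filter fun p : (Fin u → Fin l → Fin 3) × (Fin u → Fin l → Fin 3) =>
      (flat p.1, flat p.2) ∈ ((TQ ε (u * l) ×ˢ TQ ε (u * l)).filter fun p => P p.1 p.2))).card ≤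
      ((TQ ε (u * l) ×ˢ TQ ε (u * l)).filter fun p => P p.1 p.2).card := by
    apply card_le_card_of_injOn (fun p => (flat p.1, flat p.2))
    · intro p hp
      rw [mem_coe, mem_filter] at hp
      exact hp.2
    · intro p _ p' _ h
      simp only [Prod.mk.injEq] at h
      exact Prod.ext (flat_inj h.1) (flat_inj h.2)
  exact_mod_cast this

lemma wBB {ε : ℝ} (l u : ℕ) : ((2:ℝ) ^ (-((3 / 2 - 2 * ε) * (l * u : ℕ)))) ^ 2 * BB ε (u * l) =
    (2:ℝ) ^ (-(hh ε * (l * u : ℕ))) := by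
  unfold BB hh
  have h13 : (13:ℝ) = (2:ℝ) ^ (Real.logb 2 13) := by
    rw [Real.rpow_logb (by norm_num) (by norm_num) (by norm_num)]
  have e1 : (13:ℝ) ^ (u * l) = (2:ℝ) ^ (Real.logb 2 13 * ((u * l : ℕ) : ℝ)) := by
    rw [Real.rpow_mul (by norm_num), ← h13, Real.rpow_natCast]
  rw [e1, ← Real.rpow_natCast ((2:ℝ) ^ (-((3 / 2 - 2 * ε) * (l * u : ℕ)))) 2, ← Real.rpow_mul (by norm_num),
    ← Real.rpow_add (by norm_num), ← Real.rpow_add (by norm_num)]
  congr 1
  push_cast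
  ring

open Classical in
/-- RC: windows of real linear forms -/
theorem RC {ε : ℝ} (hε : 0 ≤ ε) {l : ℕ} (h : PTB ε l) (u : ℕ) (α β c L : ℝ) (hθ : 1 / 2 ≤ max |α| |β|)
    (hL : 0 ≤ L) :
    ∑ U : Fin u → Fin l → Fin 3, ∑ U' : Fin u → Fin l → Fin 3,
      (if |α * ((VN U : ℝ) - VN U') + β * ((VA U : ℝ) - VA U') - c| ≤ L then PT ε U * PT ε U' else 0) ≤
    (8 * L + 1) * (2:ℝ) ^ (-(hh ε * (l * u : ℕ))) := by
  have h1 := pair_transfer (ε := ε) (l := l) (u := u) _ (fun U => PT_le h U)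
    (fun S S' => |α * ((XV (1,0) S - XV (1,0) S' : ℤ) : ℝ) + β * ((XV (0,1) S - XV (0,1) S' : ℤ) : ℝ) - c| ≤ L)
  have h2 := real_coll ε hε (u * l) α β c L hθ hL
  have e : ∀ U U' : Fin u → Fin l → Fin 3,
      (if |α * ((XV (1,0) (flat U) - XV (1,0) (flat U') : ℤ) : ℝ) + β * ((XV (0,1) (flat U) - XV (0,1) (flat U') : ℤ) : ℝ) - c| ≤ L
        then PT ε U * PT ε U' else 0) =
      (if |α * ((VN U : ℝ) - VN U') + β * ((VA U : ℝ) - VA U') - c| ≤ L then PT ε U * PT ε U' else 0) := by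
    intro U U'
    rw [XV_N, XV_N, XV_A, XV_A]
    push_cast
    rfl
  simp only [e] at h1
  refine h1.trans ?_
  rw [← wBB (ε := ε) l u]
  calc _ ≤ ((2:ℝ) ^ (-((3 / 2 - 2 * ε) * (l * u : ℕ)))) ^ 2 * ((8 * L + 1) * BB ε (u * l)) :=
        mul_le_mul_of_nonneg_left h2 (by positivity)
    _ = _ := by ring

end Pool.Agent.H93.FL
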