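import Pool.Agent.H93.FL.HPS
import Pool.Agent.H24.FD.P4

/-! Rows KB, H1, H2. -/

set_option autoImplicit false

open Finset

namespace Pool.Agent.H93.FL

open Pool.Agent.H93.BT Pool.Agent.H24.FD Pool.FD


lemma PF_append (ε : ℝ) {l u v : ℕ} (V : Fin v → Fin l → Fin 3) (U : Fin u → Fin l → Fin 3) :
    PF ε (Fin.append V U) = PF ε V * PF ε U := by
  unfold PF
  rw [Fin.prod_univ_add]
  simp

lemma pF_nonneg (ε : ℝ) {l : ℕ} (s : Fin l → Fin 3) : 0 ≤ pF ε s := by
  unfold pF; split_ifs <;> positivity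

lemma PF_nonneg (ε : ℝ) {l k : ℕ} (S : Fin k → Fin l → Fin 3) : 0 ≤ PF ε S :=
  prod_nonneg fun _ _ => pF_nonneg _ _

lemma pF_le {l : ℕ} (h : PTB eb l) (s : Fin l → Fin 3) (hs : typN eb s) :
    pF eb s ≤ (2:ℝ) ^ (-((3 / 2 - 2 * eb) * l)) := by
  have h1 := pT_le h s
  unfold pT at h1
  unfold pF
  rw [if_pos hs]
  exact h1

lemma PF_le {l : ℕ} (h : PTB eb l) {v : ℕ} (S : Fin v → Fin l → Fin 3) (hS : ∀ i, typN eb (S i)) :
    PF eb S ≤ (2:ℝ) ^ (-((3 / 2 - 2 * eb) * (l * v : ℕ))) := by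
  unfold PF
  calc ∏ i, pF eb (S i) ≤ ∏ _i : Fin v, (2:ℝ) ^ (-((3 / 2 - 2 * eb) * l)) :=
        prod_le_prod (fun _ _ => pF_nonneg _ _) fun i _ => pF_le h _ (hS i)
    _ = _ := by
        rw [prod_const, card_univ, Fintype.card_fin, ← Real.rpow_natCast, ← Real.rpow_mul (by norm_num)]
        congr 1; push_cast; ring

lemma kc_sum (l k e : ℕ) (g : ℕ → ℝ) :
    ∑ x ∈ range (2 ^ (l * k)), kc l k e x * g x =
      2 ^ (l * k) * ∑ S : Fin k → Fin l → Fin 3, if VN S = e then PF eb S * g (VA S) else 0 := by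
  classical
  unfold kc
  simp only [mul_assoc]
  rw [← mul_sum]
  congr 1
  simp only [sum_mul]
  rw [sum_comm]
  apply sum_congr rfl; intro S _
  by_cases h : VN S = e
  · rw [if_pos h, sum_eq_single (VA S)]
    · rw [if_pos ⟨h, rfl⟩]
    · intro a _ ha
      rw [if_neg (fun h2 => ha h2.2.symm), zero_mul]
    · intro h2
      exact absurd (mem_range.2 (H48.VA_lt S)) h2
  · rw [if_neg h]
    apply sum_eq_zero
    intro a _
    rw [if_neg (fun h2 => h h2.1), zero_mul]

/-- the inner sum -/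
lemma inner_kb (hPFM : PFMStmt) (hVALS : VALSStmt) {l k : ℕ} (hP : PTB eb l) (hM : Marg eb l)
    {e : ℕ} (he : e ∈ HH l k) (a : ℕ) (D : ℝ) (hD : 1 ≤ D) (hD2 : D ≤ 2 ^ (l * k)) :
    ∑ S : Fin k → Fin l → Fin 3, (if VN S = e ∧ |(a:ℝ) - VA S| < D then PF eb S else 0) ≤
      5 * 2 ^ l * (D / 2 ^ (l * k)) ^ (4999 / 10000 : ℝ) / 2 ^ (l * k) := by
  classical
  unfold HH at he
  rw [mem_filter, mem_range] at he
  obtain ⟨helt, hetyp⟩ := he
  have h2l : (1:ℝ) ≤ 2 ^ l := one_le_pow₀ (by norm_num)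
  have hmarg := hPFM eb l hM
  by_cases hbig : (2:ℝ) ^ (l * k) ≤ D
  · have h1 : D = 2 ^ (l * k) := le_antisymm hD2 hbig
    have h2 : ∑ S : Fin k → Fin l → Fin 3, (if VN S = e ∧ |(a:ℝ) - VA S| < D then PF eb S else 0) ≤
        ∑ S : Fin k → Fin l → Fin 3, (if VN S = e then PF eb S else 0) := by
      apply sum_le_sum; intro S _
      by_cases h : VN S = e
      · rw [if_pos h]
        split_ifs
        · exact le_rfl
        · exact PF_nonneg _ _
      · rw [if_neg h, if_neg (fun h2 => h h2.1)]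
    refine h2.trans ?_
    have h3 := hmarg k e helt
    have h4 : ∑ S : Fin k → Fin l → Fin 3, (if VN S = e then PF eb S else 0) = 1 / 2 ^ (l * k) := by
      convert h3 using 1
    rw [h4, h1, div_self (by positivity), Real.one_rpow, mul_one]
    apply div_le_div_of_nonneg_right _ (by positivity)
    linarith
  · push Not at hbig
    have hk : 0 < k := by
      rcases Nat.eq_zero_or_pos k with h | h
      · rw [h, mul_zero, pow_zero] at hbig; linarith
      · exact h
    have hex : ∃ j, D < (2:ℝ) ^ (l * (j + 1)) := ⟨k - 1, by rwa [Nat.sub_add_cancel hk]⟩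
    let j := Nat.find hex
    have hj : D < (2:ℝ) ^ (l * (j + 1)) := Nat.find_spec hex
    have hju : j ≤ k - 1 := Nat.find_min' hex (by rwa [Nat.sub_add_cancel hk])
    have hlow : (2:ℝ) ^ (l * j) ≤ D := by
      rcases Nat.eq_zero_or_pos j with h | h
      · rw [h, mul_zero, pow_zero]; exact hD
      · have := Nat.find_min hex (m := j - 1) (by omega)
        push Not at this
        rwa [Nat.sub_add_cancel h] at this
    obtain ⟨v, rfl⟩ : ∃ v, k = j + v := ⟨k - j, by omega⟩
    clear_value j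
    have hpos : (0:ℝ) < 2 ^ (l * j) := by positivity
    set w : ℝ := (2:ℝ) ^ (-((3 / 2 - 2 * eb) * (l * v : ℕ))) with hw
    have hw0 : 0 ≤ w := by positivity
    set A : ℕ := a / 2 ^ (l * j) with hA
    set e0 : ℕ := e % 2 ^ (l * j) with he0
    set e1 : ℕ := e / 2 ^ (l * j) with he1
    have hpt : ∀ (V : Fin j → Fin l → Fin 3) (H : Fin v → Fin l → Fin 3),
        (if VN (Fin.append V H) = e ∧ |(a:ℝ) - VA (Fin.append V H)| < D then PF eb (Fin.append V H) else 0) ≤
        (if VN V = e0 then PF eb V else 0) *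
          (if VN H = e1 ∧ VA H ∈ Icc (A - 2 ^ l) (A + 2 ^ l) then w else 0) := by
      intro V H
      by_cases hc : VN (Fin.append V H) = e ∧ |(a:ℝ) - VA (Fin.append V H)| < D
      · rw [if_pos hc]
        have hall := hetyp (Fin.append V H) hc.1
        rw [H48.VN_append, H48.VA_append] at hc
        have hVlt := H48.VN_lt V
        have c1 : VN V = e0 := by
          rw [he0, ← hc.1, Nat.add_mul_mod_self_left, Nat.mod_eq_of_lt hVlt]
        have c2 : VN H = e1 := by
          rw [he1, ← hc.1, Nat.add_mul_div_left _ _ (by positivity), Nat.div_eq_of_lt hVlt, zero_add]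
        have c3 : VA H ∈ Icc (A - 2 ^ l) (A + 2 ^ l) := by
          have hab := hc.2
          rw [abs_lt] at hab
          push_cast at hab
          have ha := Nat.div_add_mod a (2 ^ (l * j))
          have hamod := Nat.mod_lt a (show 0 < 2 ^ (l * j) by positivity)
          have ha' : (a:ℝ) = 2 ^ (l * j) * A + (a % 2 ^ (l * j) : ℕ) := by
            rw [hA]; exact_mod_cast ha.symm
          have hamod' : ((a % 2 ^ (l * j) : ℕ) : ℝ) < 2 ^ (l * j) := by exact_mod_cast hamod
          have hVA := H48.VA_lt V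
          have hVA' : (VA V : ℝ) < 2 ^ (l * j) := by exact_mod_cast hVA
          have hn1 : (0:ℝ) ≤ (a % 2 ^ (l * j) : ℕ) := Nat.cast_nonneg _
          have hn2 : (0:ℝ) ≤ VA V := Nat.cast_nonneg _
          have hj' : D < 2 ^ (l * j) * 2 ^ l := by
            rw [← pow_add]; rwa [mul_add, mul_one] at hj
          have u1 : (2:ℝ) ^ (l * j) * VA H < 2 ^ (l * j) * (A + 2 ^ l + 1) := by
            rw [ha'] at hab
            nlinarith [hab.1, hab.2]
          have u2 : (2:ℝ) ^ (l * j) * A < 2 ^ (l * j) * (VA H + 2 ^ l + 1) := by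
            rw [ha'] at hab
            nlinarith [hab.1, hab.2]
          have v1 : (VA H : ℝ) < A + 2 ^ l + 1 := lt_of_mul_lt_mul_left u1 hpos.le
          have v2 : (A : ℝ) < VA H + 2 ^ l + 1 := lt_of_mul_lt_mul_left u2 hpos.le
          have v1' : VA H < A + 2 ^ l + 1 := by exact_mod_cast v1
          have v2' : A < VA H + 2 ^ l + 1 := by exact_mod_cast v2
          rw [mem_Icc]
          constructor <;> omega
        rw [if_pos c1, if_pos ⟨c2, c3⟩, PF_append]
        apply mul_le_mul_of_nonneg_left _ (PF_nonneg _ _)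
        apply PF_le hP
        intro i
        have := hall (Fin.natAdd j i)
        rwa [Fin.append_right] at this
      · rw [if_neg hc]
        apply mul_nonneg
        · split_ifs
          · exact PF_nonneg _ _
          · exact le_rfl
        · split_ifs
          · exact hw0
          · exact le_rfl
    rw [← (Fin.appendEquiv j v).sum_comp, Fintype.sum_prod_type]
    have hstep : ∑ V : Fin j → Fin l → Fin 3, ∑ H : Fin v → Fin l → Fin 3,
        (if VN ((Fin.appendEquiv j v) (V, H)) = e ∧ |(a:ℝ) - VA ((Fin.appendEquiv j v) (V, H))| < D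
          then PF eb ((Fin.appendEquiv j v) (V, H)) else 0) ≤
        (∑ V : Fin j → Fin l → Fin 3, if VN V = e0 then PF eb V else 0) *
        (∑ H : Fin v → Fin l → Fin 3, if VN H = e1 ∧ VA H ∈ Icc (A - 2 ^ l) (A + 2 ^ l) then w else 0) := by
      rw [sum_mul_sum]
      exact sum_le_sum fun V _ => sum_le_sum fun H _ => hpt V H
    refine hstep.trans ?_
    have h0lt : e0 < 2 ^ (l * j) := Nat.mod_lt _ (by positivity)
    have hm1 : (∑ V : Fin j → Fin l → Fin 3, if VN V = e0 then PF eb V else 0) = 1 / 2 ^ (l * j) := by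
      have := hmarg j e0 h0lt
      convert this using 1
    have hm2 : (∑ H : Fin v → Fin l → Fin 3, if VN H = e1 ∧ VA H ∈ Icc (A - 2 ^ l) (A + 2 ^ l) then w else 0) ≤
        (2 * 2 ^ l + 1) * w := by
      rw [← sum_filter, sum_const, nsmul_eq_mul]
      apply mul_le_mul_of_nonneg_right _ hw0
      have hcard : (univ.filter fun H : Fin v → Fin l → Fin 3 => VN H = e1 ∧ VA H ∈ Icc (A - 2 ^ l) (A + 2 ^ l)).card ≤
          (Icc (A - 2 ^ l) (A + 2 ^ l)).card := by
        apply card_le_card_of_injOn (fun H => VA H)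
        · intro H hH
          rw [mem_coe, mem_filter] at hH
          exact hH.2.2
        · intro H hH H' hH' h
          rw [mem_coe, mem_filter] at hH hH'
          exact (hVALS l v H).2.2.2 H' (by rw [hH.2.1, hH'.2.1]) h
      rw [Nat.card_Icc] at hcard
      have : (univ.filter fun H : Fin v → Fin l → Fin 3 => VN H = e1 ∧ VA H ∈ Icc (A - 2 ^ l) (A + 2 ^ l)).card ≤
          2 * 2 ^ l + 1 := by omega
      exact_mod_cast this
    rw [hm1]
    calc 1 / 2 ^ (l * j) * _ ≤ 1 / 2 ^ (l * j) * ((2 * 2 ^ l + 1) * w) :=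
          mul_le_mul_of_nonneg_left hm2 (by positivity)
      _ ≤ 1 / 2 ^ (l * j) * ((5 * 2 ^ l) * w) := by
          apply mul_le_mul_of_nonneg_left _ (by positivity)
          apply mul_le_mul_of_nonneg_right _ hw0
          linarith
      _ = 5 * 2 ^ l * ((2:ℝ) ^ (l * j) / 2 ^ (l * (j + v))) ^ (4999 / 10000 : ℝ) / 2 ^ (l * (j + v)) := by
          have e6 : (2:ℝ) ^ (l * j) / 2 ^ (l * (j + v)) = (2:ℝ) ^ (-((l * v : ℕ) : ℝ)) := by
            rw [mul_add, pow_add, Real.rpow_neg (by norm_num), Real.rpow_natCast]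
            field_simp
          have e7 : w = (2:ℝ) ^ (-((l * v : ℕ) : ℝ) * (4999 / 10000)) * (1 / 2 ^ (l * v)) := by
            rw [hw, one_div, ← Real.rpow_natCast 2 (l * v), ← Real.rpow_neg (by norm_num), ← Real.rpow_add (by norm_num)]
            congr 1
            unfold eb
            ring
          rw [e6, ← Real.rpow_mul (by norm_num), e7, mul_add, pow_add]
          field_simp
      _ ≤ 5 * 2 ^ l * (D / 2 ^ (l * (j + v))) ^ (4999 / 10000 : ℝ) / 2 ^ (l * (j + v)) := by
          apply div_le_div_of_nonneg_right _ (by positivity)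
          apply mul_le_mul_of_nonneg_left _ (by positivity)
          apply Real.rpow_le_rpow (by positivity) _ (by norm_num)
          exact div_le_div_of_nonneg_right hlow (by positivity)

open Classical in
/-- KB -/
theorem kb (hPFM : PFMStmt) (hVALS : VALSStmt) {l k : ℕ} (hP : PTB eb l) (hM : Marg eb l)
    {e : ℕ} (he : e ∈ HH l k) : (∑ x ∈ range (2 ^ (l * k)), kc l k e x = 1) ∧
    ∀ D : ℝ, 1 ≤ D → D ≤ 2 ^ (l * k) →
      (∑ x ∈ range (2 ^ (l * k)), ∑ x' ∈ range (2 ^ (l * k)),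
        if |(x:ℝ) - x'| < D then kc l k e x * kc l k e x' else 0) ≤
      5 * 2 ^ l * (D / 2 ^ (l * k)) ^ (4999 / 10000 : ℝ) := by
  have helt : e < 2 ^ (l * k) := by
    unfold HH at he
    rw [mem_filter, mem_range] at he
    exact he.1
  have hmass : ∑ S : Fin k → Fin l → Fin 3, (if VN S = e then PF eb S else 0) = 1 / 2 ^ (l * k) := by
    have := hPFM eb l hM k e helt
    convert this using 1
  constructor
  · have h := kc_sum l k e (fun _ => 1)
    simp only [mul_one] at h
    rw [h, hmass]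
    field_simp
  · intro D hD hD2
    have e1 : ∀ x ∈ range (2 ^ (l * k)), (∑ x' ∈ range (2 ^ (l * k)),
        if |(x:ℝ) - x'| < D then kc l k e x * kc l k e x' else 0) =
        kc l k e x * (2 ^ (l * k) * ∑ S : Fin k → Fin l → Fin 3,
          (if VN S = e ∧ |(x:ℝ) - VA S| < D then PF eb S else 0)) := by
      intro x _
      have h := kc_sum l k e (fun x' => if |(x:ℝ) - x'| < D then 1 else 0)
      have e2 : (∑ x' ∈ range (2 ^ (l * k)), if |(x:ℝ) - x'| < D then kc l k e x * kc l k e x' else 0) =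
          kc l k e x * ∑ x' ∈ range (2 ^ (l * k)), kc l k e x' * (if |(x:ℝ) - x'| < D then 1 else 0) := by
        rw [mul_sum]
        apply sum_congr rfl; intro x' _
        split_ifs <;> simp
      rw [e2, h]
      congr 2
      apply sum_congr rfl; intro S _
      by_cases c1 : VN S = e
      · by_cases c2 : |(x:ℝ) - VA S| < D
        · rw [if_pos c1, if_pos c2, if_pos ⟨c1, c2⟩, mul_one]
        · rw [if_pos c1, if_neg c2, if_neg (fun h2 => c2 h2.2), mul_zero]
      · rw [if_neg c1, if_neg (fun h2 => c1 h2.1)]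
    rw [sum_congr rfl e1]
    rw [kc_sum l k e (fun x => 2 ^ (l * k) * ∑ S : Fin k → Fin l → Fin 3,
          (if VN S = e ∧ |(x:ℝ) - VA S| < D then PF eb S else 0))]
    have hin : ∀ a : ℕ, 2 ^ (l * k) * ∑ S : Fin k → Fin l → Fin 3,
          (if VN S = e ∧ |(a:ℝ) - VA S| < D then PF eb S else 0) ≤
          5 * 2 ^ l * (D / 2 ^ (l * k)) ^ (4999 / 10000 : ℝ) := by
      intro a
      have h := inner_kb hPFM hVALS hP hM he a D hD hD2
      calc _ ≤ 2 ^ (l * k) * (5 * 2 ^ l * (D / 2 ^ (l * k)) ^ (4999 / 10000 : ℝ) / 2 ^ (l * k)) :=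
            mul_le_mul_of_nonneg_left h (by positivity)
        _ = _ := by field_simp
    calc _ ≤ 2 ^ (l * k) * ∑ S : Fin k → Fin l → Fin 3, (if VN S = e then PF eb S else 0) *
          (5 * 2 ^ l * (D / 2 ^ (l * k)) ^ (4999 / 10000 : ℝ)) := by
          apply mul_le_mul_of_nonneg_left _ (by positivity)
          apply sum_le_sum; intro S _
          by_cases c1 : VN S = e
          · rw [if_pos c1, if_pos c1]
            exact mul_le_mul_of_nonneg_left (hin _) (PF_nonneg _ _)
          · rw [if_neg c1, if_neg c1, zero_mul]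
      _ = 5 * 2 ^ l * (D / 2 ^ (l * k)) ^ (4999 / 10000 : ℝ) := by
          rw [← sum_mul, hmass]
          field_simp

/-- the differences of high parts -/
lemma high_pair {l : ℕ} (hM : Marg eb l) (j u : ℕ) (k1 k2 D : ℝ) :
    (∑ U : Fin (j + u) → Fin l → Fin 3, ∑ U' : Fin (j + u) → Fin l → Fin 3,
      (if |k1 * (((VN U / 2 ^ (l * j) : ℕ) : ℝ) - ((VN U' / 2 ^ (l * j) : ℕ) : ℝ)) +
        k2 * (((VA U / 2 ^ (l * j) : ℕ) : ℝ) - ((VA U' / 2 ^ (l * j) : ℕ) : ℝ))| < D
        then PT eb U * PT eb U' else 0)) ≤ WP eb l u k1 k2 D := by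
  classical
  rw [← (Fin.appendEquiv j u).sum_comp, Fintype.sum_prod_type]
  have e1 : ∀ (V : Fin j → Fin l → Fin 3) (H : Fin u → Fin l → Fin 3),
      VN (Fin.append V H) / 2 ^ (l * j) = VN H ∧ VA (Fin.append V H) / 2 ^ (l * j) = VA H := by
    intro V H
    rw [H48.VN_append, H48.VA_append, Nat.add_mul_div_left _ _ (by positivity),
      Nat.add_mul_div_left _ _ (by positivity), Nat.div_eq_of_lt (H48.VN_lt V), Nat.div_eq_of_lt (H48.VA_lt V),
      zero_add, zero_add]
    exact ⟨rfl, rfl⟩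
  have hs := H48.sum_PT_le eb hM j
  have hs0 : 0 ≤ ∑ V : Fin j → Fin l → Fin 3, PT eb V := sum_nonneg fun _ _ => PT_nonneg _ _
  have hW0 : 0 ≤ WP eb l u k1 k2 D := by
    unfold WP
    apply sum_nonneg; intro U _; apply sum_nonneg; intro U' _
    split_ifs
    · exact mul_nonneg (PT_nonneg _ _) (PT_nonneg _ _)
    · exact le_rfl
  calc _ = ∑ V : Fin j → Fin l → Fin 3, ∑ V' : Fin j → Fin l → Fin 3, PT eb V * PT eb V' * WP eb l u k1 k2 D := by
        apply sum_congr rfl; intro V _
        have e2 : ∀ H : Fin u → Fin l → Fin 3, ∑ U' : Fin (j + u) → Fin l → Fin 3,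
            (if |k1 * (((VN ((Fin.appendEquiv j u) (V, H)) / 2 ^ (l * j) : ℕ) : ℝ) - ((VN U' / 2 ^ (l * j) : ℕ) : ℝ)) +
            k2 * (((VA ((Fin.appendEquiv j u) (V, H)) / 2 ^ (l * j) : ℕ) : ℝ) - ((VA U' / 2 ^ (l * j) : ℕ) : ℝ))| < D
            then PT eb ((Fin.appendEquiv j u) (V, H)) * PT eb U' else 0) =
            ∑ V' : Fin j → Fin l → Fin 3, ∑ H' : Fin u → Fin l → Fin 3,
            PT eb V * PT eb V' * (if |k1 * ((VN H : ℝ) - VN H') + k2 * ((VA H : ℝ) - VA H')| < D
              then PT eb H * PT eb H' else 0) := by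
          intro H
          rw [← (Fin.appendEquiv j u).sum_comp, Fintype.sum_prod_type]
          apply sum_congr rfl; intro V' _
          apply sum_congr rfl; intro H' _
          show (if |k1 * (((VN (Fin.append V H) / 2 ^ (l * j) : ℕ) : ℝ) - ((VN (Fin.append V' H') / 2 ^ (l * j) : ℕ) : ℝ)) +
            k2 * (((VA (Fin.append V H) / 2 ^ (l * j) : ℕ) : ℝ) - ((VA (Fin.append V' H') / 2 ^ (l * j) : ℕ) : ℝ))| < D
            then PT eb (Fin.append V H) * PT eb (Fin.append V' H') else 0) = _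
          rw [(e1 V H).1, (e1 V H).2, (e1 V' H').1, (e1 V' H').2, H48.PT_append, H48.PT_append]
          split_ifs
          · ring
          · ring
        simp only [e2]
        rw [sum_comm]
        apply sum_congr rfl; intro V' _
        unfold WP
        rw [mul_sum]
        apply sum_congr rfl; intro H _
        rw [mul_sum]
    _ = ((∑ V : Fin j → Fin l → Fin 3, PT eb V) * (∑ V : Fin j → Fin l → Fin 3, PT eb V)) * WP eb l u k1 k2 D := by
        rw [sum_mul_sum, sum_mul]
        apply sum_congr rfl; intro V _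
        rw [sum_mul]
    _ ≤ 1 * WP eb l u k1 k2 D := by
        apply mul_le_mul_of_nonneg_right _ hW0
        nlinarith
    _ = _ := one_mul _

/-- H1 -/
theorem h1 {l k u : ℕ} (hl : 0 < l) (hP : PTB eb l) (hM : Marg eb l) (hu : u ≤ k) (κ : ℤ × ℤ) (hκ : κ ≠ 0) :
    H1c (l * k) (l * u) (Pool.Agent.H24.FD.pw l k) κ Pool.Agent.H24.FD.hh (25 * 2 ^ l) (2 ^ (l * u)) := by
  classical
  intro D hD
  obtain ⟨j, rfl⟩ : ∃ j, k = j + u := ⟨k - u, by omega⟩
  have hsub : l * (j + u) - l * u = l * j := by rw [mul_add]; omega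
  rw [hsub]
  have h0 : (0:ℝ) ≤ Pool.Agent.H24.FD.hh := by unfold Pool.Agent.H24.FD.hh; norm_num
  have e1 := pw_sum2 l (j + u) (fun n a n' a' => if |(κ.1:ℝ) * (((n / 2 ^ (l * j) : ℕ) : ℝ) - ((n' / 2 ^ (l * j) : ℕ) : ℝ)) +
        κ.2 * (((a / 2 ^ (l * j) : ℕ) : ℝ) - ((a' / 2 ^ (l * j) : ℕ) : ℝ))| < D then (1:ℝ) else 0)
  have e2 : ∀ (c : Prop) [Decidable c] (x y : ℝ), (if c then x * y else 0) = x * y * (if c then 1 else 0) := by
    intro c _ x y; split_ifs <;> simp
  simp only [e2]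
  rw [e1]
  have hm : 1 ≤ max |(κ.1:ℝ)| |(κ.2:ℝ)| := by
    by_cases h1 : κ.1 = 0
    · have h2 : κ.2 ≠ 0 := by
        intro h2; apply hκ; ext
        · simpa using h1
        · simpa using h2
      refine le_trans ?_ (le_max_right _ _)
      exact_mod_cast Int.one_le_abs h2
    · refine le_trans ?_ (le_max_left _ _)
      exact_mod_cast Int.one_le_abs h1
  have h3 := high_pair hM j u (κ.1:ℝ) κ.2 D
  simp only [e2] at h3
  refine h3.trans ((SBh hl hP hM u _ _ D (by linarith)).trans ?_)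
  apply mul_le_mul_of_nonneg_left _ (by positivity)
  apply Real.rpow_le_rpow (by positivity) _ h0
  apply div_le_div_of_nonneg_right _ (by positivity)
  apply max_le hD
  rw [div_le_iff₀ (by linarith)]
  nlinarith

/-- H2 -/
theorem h2 {l k T M : ℕ} (hl : 0 < l) (hP : PTB eb l) (hM : Marg eb l) (hT : 0 < T) (hTM : T ≤ M) :
    H2c (l * k) (Pool.Agent.H24.FD.pw l k) T M Pool.Agent.H24.FD.hh (25 * 2 ^ l * ((M:ℝ) / T)) (2 ^ (l * k) / T) := by
  classical
  intro m hm D hD
  have h0 : (0:ℝ) ≤ Pool.Agent.H24.FD.hh := by unfold Pool.Agent.H24.FD.hh; norm_num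
  have h1 : Pool.Agent.H24.FD.hh ≤ (1:ℝ) := by unfold Pool.Agent.H24.FD.hh; norm_num
  have hT' : (0:ℝ) < T := by exact_mod_cast hT
  have hM' : (T:ℝ) ≤ M := by exact_mod_cast hTM
  rw [bx0, mem_filter, bx, mem_product, mem_Ioo, mem_Ioo] at hm
  obtain ⟨⟨⟨a1, a2⟩, ⟨a3, a4⟩⟩, hne⟩ := hm
  have hnm : nm m = max |(m.1:ℝ)| |(m.2:ℝ)| := rfl
  have hnm1 : 1 ≤ nm m := by
    rw [hnm]
    by_cases h1 : m.1 = 0
    · have h2 : m.2 ≠ 0 := by
        intro h2; apply hne; ext
        · simpa using h1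
        · simpa using h2
      refine le_trans ?_ (le_max_right _ _)
      exact_mod_cast Int.one_le_abs h2
    · refine le_trans ?_ (le_max_left _ _)
      exact_mod_cast Int.one_le_abs h1
  have hnmM : nm m ≤ M := by
    rw [hnm]
    apply max_le
    · rw [abs_le]
      constructor
      · exact_mod_cast a1.le
      · exact_mod_cast a2.le
    · rw [abs_le]
      constructor
      · exact_mod_cast a3.le
      · exact_mod_cast a4.le
  have e2 : ∀ (c : Prop) [Decidable c] (x y : ℝ), (if c then x * y else 0) = x * y * (if c then 1 else 0) := by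
    intro c _ x y; split_ifs <;> simp
  have e1 := pw_sum2 l k (fun n a n' a' => if |(m.1:ℝ) * ((n:ℝ) - n') + m.2 * ((a:ℝ) - a')| < D * T then (1:ℝ) else 0)
  simp only [e2]
  rw [e1]
  have e3 : (∑ U : Fin k → Fin l → Fin 3, ∑ U' : Fin k → Fin l → Fin 3, PT eb U * PT eb U' *
      (if |(m.1:ℝ) * ((VN U:ℝ) - VN U') + m.2 * ((VA U:ℝ) - VA U')| < D * T then (1:ℝ) else 0)) =
      WP eb l k m.1 m.2 (D * T) := by
    unfold WP
    apply sum_congr rfl; intro U _; apply sum_congr rfl; intro U' _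
    split_ifs <;> simp
  rw [e3]
  refine (SBh hl hP hM k _ _ (D * T) (by rw [← hnm]; linarith)).trans ?_
  rw [← hnm]
  set x : ℝ := D * T / nm m with hx
  have hx0 : 0 < x := by rw [hx]; positivity
  have e4 : D / (2 ^ (l * k) / T * nm m) = x / 2 ^ (l * k) := by
    rw [hx]; field_simp
  rw [e4]
  have hMT : 1 ≤ (M:ℝ) / T := by rw [one_le_div hT']; exact hM'
  by_cases hx1 : 1 ≤ x
  · rw [max_eq_right hx1]
    apply mul_le_mul_of_nonneg_right _ (by positivity)
    exact le_mul_of_one_le_right (by positivity) hMT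
  · push Not at hx1
    rw [max_eq_left hx1.le, Real.div_rpow hx0.le (by positivity), Real.div_rpow (by norm_num) (by positivity),
      Real.one_rpow]
    have h5 : 1 ≤ (M:ℝ) / T * x ^ Pool.Agent.H24.FD.hh := by
      have h6 : x ≤ x ^ Pool.Agent.H24.FD.hh := by
        calc x = x ^ (1:ℝ) := (Real.rpow_one _).symm
          _ ≤ x ^ Pool.Agent.H24.FD.hh := Real.rpow_le_rpow_of_exponent_ge hx0 hx1.le h1
      have h7 : (T:ℝ) / M ≤ x := by
        rw [hx]
        apply div_le_div₀ (by positivity) _ (by linarith) hnmM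
        nlinarith
      calc (1:ℝ) = (M:ℝ) / T * ((T:ℝ) / M) := by
            have : (0:ℝ) < M := by linarith
            field_simp
        _ ≤ (M:ℝ) / T * x ^ Pool.Agent.H24.FD.hh := mul_le_mul_of_nonneg_left (h7.trans h6) (by positivity)
    calc 25 * 2 ^ l * (1 / (2 ^ (l * k)) ^ Pool.Agent.H24.FD.hh) = 25 * 2 ^ l * (1 * (1 / (2 ^ (l * k)) ^ Pool.Agent.H24.FD.hh)) := by ring
      _ ≤ 25 * 2 ^ l * ((M:ℝ) / T * x ^ Pool.Agent.H24.FD.hh * (1 / (2 ^ (l * k)) ^ Pool.Agent.H24.FD.hh)) := by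
          apply mul_le_mul_of_nonneg_left _ (by positivity)
          exact mul_le_mul_of_nonneg_right h5 (by positivity)
      _ = _ := by ring

end Pool.Agent.H93.FL
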