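import Pool.Agent.H93.BT.RealDir
import Pool.Agent.H24.FD.P1
import Pool.Agent.H84.FD.S2

/-! Free law rows: from `PT` to the hypotheses of the analysis rows. -/

set_option autoImplicit false

open Finset

namespace Pool.Agent.H93.FL

open Pool.Agent.H24.FD Pool.FD Pool.Agent.H93.BT

open Classical in
/-- the free law on `[0,2^(l u))^2` -/
noncomputable def pw (ε : ℝ) (l u : ℕ) (n a : ℕ) : ℝ :=
  ∑ U : Fin u → Fin l → Fin 3, if VN U = n ∧ VA U = a then PT ε U else 0

/-- the exponent -/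
noncomputable def hh (ε : ℝ) : ℝ := 9 / 2 - Real.logb 2 13 - 8 * ε

/-! ### T1 -/

lemma cn_sum {l : ℕ} (s : Fin l → Fin 3) : cn 0 s + cn 1 s + cn 2 s = l := cnt_sum s

lemma choose_mid (z : ℕ) : 2 ^ z ≤ (z + 1) * z.choose (z / 2) := by
  rw [← Nat.sum_range_choose z]
  calc ∑ m ∈ range (z + 1), z.choose m ≤ ∑ _m ∈ range (z + 1), z.choose (z / 2) :=
        sum_le_sum fun m _ => Nat.choose_le_middle m z
    _ = _ := by simp

open Classical in
lemma DD_ge (ε : ℝ) {l : ℕ} (hl : 1 ≤ ε * l) (s : Fin l → Fin 3) (hs : typ ε s) :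
    (cn 0 s + cn 1 s).choose ((cn 0 s + cn 1 s) / 2) ≤ DD ε s := by
  unfold DD
  set Z : Finset (Fin l) := univ.filter fun i => s i ≠ 2 with hZ
  have hZc : Z.card = cn 0 s + cn 1 s := by
    have h1 : Z.card + cn 2 s = l := by
      unfold cn
      rw [hZ]
      have := card_filter_add_card_filter_not (s := (univ : Finset (Fin l))) (fun i => s i ≠ 2)
      simp only [ne_eq, not_not] at this
      rw [card_univ, Fintype.card_fin] at this
      exact this
    have h2 := cn_sum s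
    omega
  rw [← hZc, ← card_powersetCard]
  apply card_le_card_of_injOn (fun A : Finset (Fin l) => fun i => if s i = 2 then (2 : Fin 3) else if i ∈ A then 1 else 0)
  · intro A hA
    rw [mem_coe, mem_powersetCard] at hA
    rw [mem_coe, mem_filter]
    refine ⟨mem_univ _, ?_, ?_⟩
    · unfold vN
      apply sum_congr rfl
      intro i _
      congr 1
      by_cases h : s i = 2
      · simp [h]
      · by_cases h2 : i ∈ A <;> simp [h, h2]
    · have hc2 : cn 2 (fun i => if s i = 2 then (2 : Fin 3) else if i ∈ A then 1 else 0) = cn 2 s := by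
        unfold cn
        congr 1
        apply filter_congr
        intro i _
        by_cases h : s i = 2
        · simp [h]
        · by_cases h2 : i ∈ A <;> simp [h, h2]
      have hc1 : cn 1 (fun i => if s i = 2 then (2 : Fin 3) else if i ∈ A then 1 else 0) = Z.card / 2 := by
        unfold cn
        rw [← hA.2]
        congr 1
        ext i
        rw [mem_filter]
        constructor
        · rintro ⟨_, h⟩
          by_cases h1 : s i = 2
          · simp [h1] at h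
          · by_cases h2 : i ∈ A
            · exact h2
            · simp [h1, h2] at h
        · intro h
          refine ⟨mem_univ _, ?_⟩
          have := hA.1 h
          rw [hZ, mem_filter] at this
          simp [this.2, h]
      obtain ⟨hN, _⟩ := hs
      refine ⟨?_, ?_⟩
      · unfold typN at hN ⊢
        rw [hc2]; exact hN
      · rw [hc1, hZc]
        unfold typN at hN
        have h2 := cn_sum s
        have h3 : (((cn 0 s + cn 1 s : ℕ)) : ℝ) = l - cn 2 s := by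
          have : ((cn 0 s + cn 1 s + cn 2 s : ℕ) : ℝ) = l := by exact_mod_cast h2
          push_cast at this ⊢
          linarith
        have h4 : (((cn 0 s + cn 1 s) / 2 : ℕ) : ℝ) ≤ ((cn 0 s + cn 1 s : ℕ) : ℝ) / 2 := Nat.cast_div_le
        have h5 : ((cn 0 s + cn 1 s : ℕ) : ℝ) / 2 - 1 / 2 ≤ (((cn 0 s + cn 1 s) / 2 : ℕ) : ℝ) := by
          have : cn 0 s + cn 1 s ≤ 2 * ((cn 0 s + cn 1 s) / 2) + 1 := by omega
          have : ((cn 0 s + cn 1 s : ℕ) : ℝ) ≤ 2 * (((cn 0 s + cn 1 s) / 2 : ℕ) : ℝ) + 1 := by exact_mod_cast this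
          linarith
        rw [abs_le] at hN ⊢
        constructor <;> linarith [hN.1, hN.2]
  · intro A hA A' hA' h
    rw [mem_coe, mem_powersetCard] at hA hA'
    ext i
    have hi := congrFun h i
    simp only at hi
    constructor
    · intro hiA
      have := hA.1 hiA
      rw [hZ, mem_filter] at this
      by_contra h2
      simp [this.2, hiA, h2] at hi
    · intro hiA
      have := hA'.1 hiA
      rw [hZ, mem_filter] at this
      by_contra h2
      simp [this.2, hiA, h2] at hi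

/-- T1 -/
theorem T1 (ε : ℝ) (hε : 0 < ε) : ∃ l₀ : ℕ, ∀ l ≥ l₀, ∀ s : Fin l → Fin 3, typ ε s →
    (2:ℝ) ^ ((1 / 2 - 2 * ε) * l) ≤ DD ε s := by
  have h1 : ∀ᶠ l : ℕ in Filter.atTop, 1 ≤ ε * l :=
    ((tendsto_natCast_atTop_atTop (R := ℝ)).const_mul_atTop hε).eventually_ge_atTop 1
  have h2 : ∀ᶠ l : ℕ in Filter.atTop, (l:ℝ) + 1 ≤ (2:ℝ) ^ (ε * l) := by
    have h3 : Filter.Tendsto (fun x : ℝ => (x + 1) * Real.exp (-(ε * Real.log 2 * x))) Filter.atTop (nhds 0) := by
      have hb : 0 < ε * Real.log 2 := mul_pos hε (Real.log_pos (by norm_num))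
      have e1 := Real.tendsto_pow_mul_exp_neg_atTop_nhds_zero 1
      have e2 : Filter.Tendsto (fun x : ℝ => (ε * Real.log 2 * x) ^ 1 * Real.exp (-(ε * Real.log 2 * x))) Filter.atTop (nhds 0) :=
        e1.comp (Filter.tendsto_id.const_mul_atTop hb)
      have e3 : Filter.Tendsto (fun x : ℝ => Real.exp (-(ε * Real.log 2 * x))) Filter.atTop (nhds 0) :=
        Real.tendsto_exp_neg_atTop_nhds_zero.comp (Filter.tendsto_id.const_mul_atTop hb)
      have e4 := (e2.const_mul (ε * Real.log 2)⁻¹).add e3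
      simp only [mul_zero, add_zero] at e4
      refine e4.congr fun x => ?_
      field_simp
    have h4 := (h3.comp tendsto_natCast_atTop_atTop).eventually (ge_mem_nhds (show (0:ℝ) < 1 by norm_num))
    filter_upwards [h4] with l hl
    simp only [Function.comp] at hl
    rw [Real.rpow_def_of_pos (by norm_num)]
    have h5 : ((l:ℝ) + 1) * Real.exp (-(ε * Real.log 2 * l)) * Real.exp (Real.log 2 * (ε * l)) ≤
        1 * Real.exp (Real.log 2 * (ε * l)) := mul_le_mul_of_nonneg_right hl (Real.exp_pos _).le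
    rw [mul_assoc, ← Real.exp_add, one_mul] at h5
    have : -(ε * Real.log 2 * l) + Real.log 2 * (ε * l) = 0 := by ring
    rwa [this, Real.exp_zero, mul_one] at h5
  obtain ⟨l₀, hl₀⟩ := Filter.eventually_atTop.1 (h1.and h2)
  refine ⟨l₀, fun l hl s hs => ?_⟩
  obtain ⟨g1, g2⟩ := hl₀ l hl
  have h3 := DD_ge ε g1 s hs
  have h4 := choose_mid (cn 0 s + cn 1 s)
  have hz : cn 0 s + cn 1 s + cn 2 s = l := cn_sum s
  set z := cn 0 s + cn 1 s with hzdef
  have hzl : (z:ℝ) ≤ l := by exact_mod_cast (by omega : z ≤ l)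
  have hz2 : (1 / 2 - ε) * l ≤ z := by
    have hN := hs.1
    unfold typN at hN
    rw [abs_le] at hN
    have : (z:ℝ) = l - cn 2 s := by
      have : ((z + cn 2 s : ℕ) : ℝ) = l := by exact_mod_cast hz
      push_cast at this; linarith
    rw [this]; linarith [hN.2]
  have h5 : (2:ℝ) ^ z ≤ (z + 1) * DD ε s := by
    calc (2:ℝ) ^ z = ((2 ^ z : ℕ) : ℝ) := by push_cast; rfl
      _ ≤ (((z + 1) * z.choose (z / 2) : ℕ) : ℝ) := by exact_mod_cast h4
      _ = ((z:ℝ) + 1) * (z.choose (z / 2) : ℝ) := by push_cast; rfl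
      _ ≤ ((z:ℝ) + 1) * DD ε s := mul_le_mul_of_nonneg_left (by exact_mod_cast h3) (by positivity)
  have h6 : (2:ℝ) ^ ((1 / 2 - ε) * l) ≤ (2:ℝ) ^ (ε * l) * DD ε s := by
    calc (2:ℝ) ^ ((1 / 2 - ε) * l) ≤ (2:ℝ) ^ (z:ℝ) := Real.rpow_le_rpow_of_exponent_le (by norm_num) hz2
      _ = (2:ℝ) ^ z := Real.rpow_natCast _ _
      _ ≤ (z + 1) * DD ε s := h5
      _ ≤ ((2:ℝ) ^ (ε * l)) * DD ε s := mul_le_mul_of_nonneg_right (by linarith) (by positivity)
  have h7 : (2:ℝ) ^ ((1 / 2 - ε) * l) = (2:ℝ) ^ (ε * l) * (2:ℝ) ^ ((1 / 2 - 2 * ε) * l) := by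
    rw [← Real.rpow_add (by norm_num)]; congr 1; ring
  rw [h7] at h6
  exact le_of_mul_le_mul_left h6 (Real.rpow_pos_of_pos (by norm_num) _)

/-- upper bound of the law of a macro-digit -/
def PTB (ε : ℝ) (l : ℕ) : Prop := ∀ s : Fin l → Fin 3, typ ε s → (2:ℝ) ^ ((1 / 2 - 2 * ε) * l) ≤ DD ε s

lemma pT_nonneg (ε : ℝ) {l : ℕ} (s : Fin l → Fin 3) : 0 ≤ pT ε s := by
  classical
  unfold pT; split_ifs <;> positivity

lemma pT_le {ε : ℝ} {l : ℕ} (h : PTB ε l) (s : Fin l → Fin 3) : pT ε s ≤ (2:ℝ) ^ (-((3 / 2 - 2 * ε) * l)) := by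
  classical
  unfold pT
  split_ifs with hs
  · have h1 := h s hs
    have hpos : (0:ℝ) < (2:ℝ) ^ ((1 / 2 - 2 * ε) * l) := Real.rpow_pos_of_pos (by norm_num) _
    have h2 : (2:ℝ) ^ ((3 / 2 - 2 * ε) * l) ≤ 2 ^ l * DD ε s := by
      calc (2:ℝ) ^ ((3 / 2 - 2 * ε) * l) = (2:ℝ) ^ (l:ℝ) * (2:ℝ) ^ ((1 / 2 - 2 * ε) * l) := by
            rw [← Real.rpow_add (by norm_num)]; congr 1; ring
        _ = 2 ^ l * (2:ℝ) ^ ((1 / 2 - 2 * ε) * l) := by rw [Real.rpow_natCast]
        _ ≤ 2 ^ l * DD ε s := mul_le_mul_of_nonneg_left h1 (by positivity)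
    rw [Real.rpow_neg (by norm_num), one_div]
    exact inv_anti₀ (Real.rpow_pos_of_pos (by norm_num) _) h2
  · positivity

lemma PT_nonneg (ε : ℝ) {l u : ℕ} (U : Fin u → Fin l → Fin 3) : 0 ≤ PT ε U :=
  prod_nonneg fun _ _ => pT_nonneg _ _

lemma PT_le {ε : ℝ} {l : ℕ} (h : PTB ε l) {u : ℕ} (U : Fin u → Fin l → Fin 3) :
    PT ε U ≤ (2:ℝ) ^ (-((3 / 2 - 2 * ε) * (l * u : ℕ))) := by
  unfold PT
  calc ∏ i, pT ε (U i) ≤ ∏ _i : Fin u, (2:ℝ) ^ (-((3 / 2 - 2 * ε) * l)) :=
        prod_le_prod (fun _ _ => pT_nonneg _ _) fun i _ => pT_le h _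
    _ = _ := by
        rw [prod_const, card_univ, Fintype.card_fin, ← Real.rpow_natCast, ← Real.rpow_mul (by norm_num)]
        congr 1; push_cast; ring

end Pool.Agent.H93.FL
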