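import Pool.Agent.H93.FL.Flat
import Pool.Agent.H25.FD.PHI
import Pool.Agent.H48.FD.FLA

/-! Small balls: SB, and the rows HPS. -/

set_option autoImplicit false

open Finset

namespace Pool.Agent.H93.FL

open Pool.Agent.H93.BT Pool.Agent.H24.FD Pool.FD

open Classical in
/-- probability of a window for a difference of two independent copies -/
noncomputable def WP (ε : ℝ) (l u : ℕ) (t1 t2 D : ℝ) : ℝ :=
  ∑ U : Fin u → Fin l → Fin 3, ∑ U' : Fin u → Fin l → Fin 3,
    (if |t1 * ((VN U : ℝ) - VN U') + t2 * ((VA U : ℝ) - VA U')| < D then PT ε U * PT ε U' else 0)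

lemma WP_le_one (ε : ℝ) {l : ℕ} (hM : Marg ε l) (u : ℕ) (t1 t2 D : ℝ) : WP ε l u t1 t2 D ≤ 1 := by
  classical
  unfold WP
  calc _ ≤ ∑ U : Fin u → Fin l → Fin 3, ∑ U' : Fin u → Fin l → Fin 3, PT ε U * PT ε U' := by
        apply sum_le_sum; intro U _; apply sum_le_sum; intro U' _
        split_ifs
        · exact le_rfl
        · exact mul_nonneg (PT_nonneg _ _) (PT_nonneg _ _)
    _ = (∑ U : Fin u → Fin l → Fin 3, PT ε U) * (∑ U : Fin u → Fin l → Fin 3, PT ε U) := by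
        rw [sum_mul_sum]
    _ ≤ 1 * 1 := mul_le_mul (H48.sum_PT_le ε hM u) (H48.sum_PT_le ε hM u)
        (sum_nonneg fun _ _ => PT_nonneg _ _) (by norm_num)
    _ = 1 := by norm_num

lemma WP_mono (ε : ℝ) {l : ℕ} (u : ℕ) (t1 t2 : ℝ) {D D' : ℝ} (h : D ≤ D') :
    WP ε l u t1 t2 D ≤ WP ε l u t1 t2 D' := by
  classical
  unfold WP
  apply sum_le_sum; intro U _; apply sum_le_sum; intro U' _
  by_cases h1 : |t1 * ((VN U : ℝ) - VN U') + t2 * ((VA U : ℝ) - VA U')| < D
  · rw [if_pos h1, if_pos (lt_of_lt_of_le h1 h)]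
  · rw [if_neg h1]
    split_ifs
    · exact mul_nonneg (PT_nonneg _ _) (PT_nonneg _ _)
    · exact le_rfl

lemma WP_scale (ε : ℝ) {l : ℕ} (u : ℕ) (t1 t2 D : ℝ) {c : ℝ} (hc : 0 < c) :
    WP ε l u (c * t1) (c * t2) (c * D) = WP ε l u t1 t2 D := by
  classical
  unfold WP
  apply sum_congr rfl; intro U _; apply sum_congr rfl; intro U' _
  have e : |c * t1 * ((VN U : ℝ) - VN U') + c * t2 * ((VA U : ℝ) - VA U')| =
      c * |t1 * ((VN U : ℝ) - VN U') + t2 * ((VA U : ℝ) - VA U')| := by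
    rw [← abs_of_pos hc, ← abs_mul, abs_of_pos hc]
    congr 1; ring
  rw [e]
  by_cases h : |t1 * ((VN U : ℝ) - VN U') + t2 * ((VA U : ℝ) - VA U')| < D
  · rw [if_pos h, if_pos (mul_lt_mul_of_pos_left h hc)]
  · rw [if_neg h, if_neg]
    intro h2
    exact h (lt_of_mul_lt_mul_left h2 hc.le)

/-- SB -/
theorem SB {ε : ℝ} (hε : 0 ≤ ε) {l : ℕ} (hl : 0 < l) (hP : PTB ε l) (hM : Marg ε l) (hh0 : 0 ≤ hh ε)
    (u : ℕ) (t1 t2 D : ℝ) (hθ : 1 / 2 ≤ max |t1| |t2|) (hθ1 : max |t1| |t2| ≤ 1) (hD : 1 ≤ D) :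
    WP ε l u t1 t2 D ≤ 25 * 2 ^ l * (D / 2 ^ (l * u)) ^ hh ε := by
  classical
  have h2l : (1:ℝ) ≤ 2 ^ l := one_le_pow₀ (by norm_num)
  by_cases hbig : (2:ℝ) ^ (l * u) ≤ D
  · have h1 : (1:ℝ) ≤ (D / 2 ^ (l * u)) ^ hh ε := by
      apply Real.one_le_rpow _ hh0
      rw [one_le_div (by positivity)]; exact hbig
    calc WP ε l u t1 t2 D ≤ 1 := WP_le_one ε hM u t1 t2 D
      _ ≤ 25 * 2 ^ l * 1 := by linarith
      _ ≤ _ := mul_le_mul_of_nonneg_left h1 (by positivity)
  · push Not at hbig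
    -- choose j
    have hex : ∃ j, D < (2:ℝ) ^ (l * (j + 1)) := by
      rcases Nat.eq_zero_or_pos u with h | h
      · rw [h, mul_zero, pow_zero] at hbig; linarith
      · exact ⟨u - 1, by rwa [Nat.sub_add_cancel h]⟩
    have hu : 0 < u := by
      rcases Nat.eq_zero_or_pos u with h | h
      · rw [h, mul_zero, pow_zero] at hbig; linarith
      · exact h
    let j := Nat.find hex
    have hj : D < (2:ℝ) ^ (l * (j + 1)) := Nat.find_spec hex
    have hju : j ≤ u - 1 := Nat.find_min' hex (by rwa [Nat.sub_add_cancel hu])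
    have hlow : (2:ℝ) ^ (l * j) ≤ D := by
      rcases Nat.eq_zero_or_pos j with h | h
      · rw [h, mul_zero, pow_zero]; exact hD
      · have := Nat.find_min hex (m := j - 1) (by omega)
        push Not at this
        rwa [Nat.sub_add_cancel h] at this
    obtain ⟨v, rfl⟩ : ∃ v, u = j + v := ⟨u - j, by omega⟩
    have hpos : (0:ℝ) < 2 ^ (l * j) := by positivity
    have ht1 : |t1| ≤ 1 := (le_max_left _ _).trans hθ1
    have ht2 : |t2| ≤ 1 := (le_max_right _ _).trans hθ1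
    have hkey : WP ε l (j + v) t1 t2 D ≤ ∑ V : Fin j → Fin l → Fin 3, ∑ V' : Fin j → Fin l → Fin 3,
        PT ε V * PT ε V' * ((8 * (2 ^ l + 2) + 1) * (2:ℝ) ^ (-(hh ε * (l * v : ℕ)))) := by
      unfold WP
      rw [← (Fin.appendEquiv j v).sum_comp, Fintype.sum_prod_type]
      apply sum_le_sum
      intro V _
      have e1 : ∀ H : Fin v → Fin l → Fin 3, ∑ U' : Fin (j + v) → Fin l → Fin 3,
          (if |t1 * ((VN ((Fin.appendEquiv j v) (V, H)) : ℝ) - VN U') +
            t2 * ((VA ((Fin.appendEquiv j v) (V, H)) : ℝ) - VA U')| < D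
            then PT ε ((Fin.appendEquiv j v) (V, H)) * PT ε U' else 0) =
          ∑ V' : Fin j → Fin l → Fin 3, ∑ H' : Fin v → Fin l → Fin 3,
          (if |t1 * ((VN (Fin.append V H) : ℝ) - VN (Fin.append V' H')) +
            t2 * ((VA (Fin.append V H) : ℝ) - VA (Fin.append V' H'))| < D
            then PT ε (Fin.append V H) * PT ε (Fin.append V' H') else 0) := by
        intro H
        rw [← (Fin.appendEquiv j v).sum_comp, Fintype.sum_prod_type]
        rfl
      simp only [e1]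
      rw [sum_comm]
      apply sum_le_sum
      intro V' _
      have hRC := RC hε hP v t1 t2 0 (2 ^ l + 2) hθ (by positivity)
      have hle : ∀ H H' : Fin v → Fin l → Fin 3,
          (if |t1 * ((VN (Fin.append V H) : ℝ) - VN (Fin.append V' H')) +
            t2 * ((VA (Fin.append V H) : ℝ) - VA (Fin.append V' H'))| < D
            then PT ε (Fin.append V H) * PT ε (Fin.append V' H') else 0) ≤
          PT ε V * PT ε V' * (if |t1 * ((VN H : ℝ) - VN H') + t2 * ((VA H : ℝ) - VA H') - 0| ≤ 2 ^ l + 2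
            then PT ε H * PT ε H' else 0) := by
        intro H H'
        rw [H48.PT_append, H48.PT_append, H48.VN_append, H48.VN_append, H48.VA_append, H48.VA_append]
        by_cases hc : |t1 * (((VN V + 2 ^ (l * j) * VN H : ℕ) : ℝ) - ((VN V' + 2 ^ (l * j) * VN H' : ℕ) : ℝ)) +
            t2 * (((VA V + 2 ^ (l * j) * VA H : ℕ) : ℝ) - ((VA V' + 2 ^ (l * j) * VA H' : ℕ) : ℝ))| < D
        · rw [if_pos hc, if_pos]
          · apply le_of_eq; ring
          · rw [sub_zero]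
            set x : ℝ := t1 * ((VN H : ℝ) - VN H') + t2 * ((VA H : ℝ) - VA H') with hx
            set y : ℝ := t1 * ((VN V : ℝ) - VN V') + t2 * ((VA V : ℝ) - VA V') with hy
            have e2 : t1 * (((VN V + 2 ^ (l * j) * VN H : ℕ) : ℝ) - ((VN V' + 2 ^ (l * j) * VN H' : ℕ) : ℝ)) +
              t2 * (((VA V + 2 ^ (l * j) * VA H : ℕ) : ℝ) - ((VA V' + 2 ^ (l * j) * VA H' : ℕ) : ℝ)) =
              y + 2 ^ (l * j) * x := by rw [hx, hy]; push_cast; ring
            rw [e2] at hc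
            have hVN : |(VN V : ℝ) - VN V'| ≤ 2 ^ (l * j) := by
              have a := H48.VN_lt V
              have b := H48.VN_lt V'
              have a' : (VN V : ℝ) < 2 ^ (l * j) := by exact_mod_cast a
              have b' : (VN V' : ℝ) < 2 ^ (l * j) := by exact_mod_cast b
              rw [abs_le]; constructor <;> linarith [(Nat.cast_nonneg (VN V) : (0:ℝ) ≤ _), (Nat.cast_nonneg (VN V') : (0:ℝ) ≤ _)]
            have hVA : |(VA V : ℝ) - VA V'| ≤ 2 ^ (l * j) := by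
              have a := H48.VA_lt V
              have b := H48.VA_lt V'
              have a' : (VA V : ℝ) < 2 ^ (l * j) := by exact_mod_cast a
              have b' : (VA V' : ℝ) < 2 ^ (l * j) := by exact_mod_cast b
              rw [abs_le]; constructor <;> linarith [(Nat.cast_nonneg (VA V) : (0:ℝ) ≤ _), (Nat.cast_nonneg (VA V') : (0:ℝ) ≤ _)]
            have hy2 : |y| ≤ 2 * 2 ^ (l * j) := by
              calc |y| ≤ |t1 * ((VN V : ℝ) - VN V')| + |t2 * ((VA V : ℝ) - VA V')| := abs_add_le _ _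
                _ = |t1| * |(VN V : ℝ) - VN V'| + |t2| * |(VA V : ℝ) - VA V'| := by rw [abs_mul, abs_mul]
                _ ≤ 1 * 2 ^ (l * j) + 1 * 2 ^ (l * j) :=
                  add_le_add (mul_le_mul ht1 hVN (abs_nonneg _) (by norm_num))
                    (mul_le_mul ht2 hVA (abs_nonneg _) (by norm_num))
                _ = _ := by ring
            have h3 : 2 ^ (l * j) * |x| ≤ D + 2 * 2 ^ (l * j) := by
              have e3 : 2 ^ (l * j) * |x| = |(y + 2 ^ (l * j) * x) - y| := by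
                rw [add_sub_cancel_left, abs_mul, abs_of_pos hpos]
              rw [e3]
              calc |(y + 2 ^ (l * j) * x) - y| ≤ |y + 2 ^ (l * j) * x| + |y| := abs_sub _ _
                _ ≤ D + 2 * 2 ^ (l * j) := add_le_add hc.le hy2
            have h4 : D ≤ 2 ^ (l * j) * 2 ^ l := by
              rw [← pow_add]; rw [mul_add, mul_one] at hj; exact hj.le
            have h5 : 2 ^ (l * j) * |x| ≤ 2 ^ (l * j) * (2 ^ l + 2) := by
              calc _ ≤ D + 2 * 2 ^ (l * j) := h3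
                _ ≤ 2 ^ (l * j) * 2 ^ l + 2 * 2 ^ (l * j) := by linarith
                _ = _ := by ring
            exact le_of_mul_le_mul_left h5 hpos
        · rw [if_neg hc]
          apply mul_nonneg (mul_nonneg (PT_nonneg _ _) (PT_nonneg _ _))
          split_ifs
          · exact mul_nonneg (PT_nonneg _ _) (PT_nonneg _ _)
          · exact le_rfl
      calc _ ≤ ∑ H : Fin v → Fin l → Fin 3, ∑ H' : Fin v → Fin l → Fin 3,
            PT ε V * PT ε V' * (if |t1 * ((VN H : ℝ) - VN H') + t2 * ((VA H : ℝ) - VA H') - 0| ≤ 2 ^ l + 2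
            then PT ε H * PT ε H' else 0) := sum_le_sum fun H _ => sum_le_sum fun H' _ => hle H H'
        _ = PT ε V * PT ε V' * ∑ H : Fin v → Fin l → Fin 3, ∑ H' : Fin v → Fin l → Fin 3,
            (if |t1 * ((VN H : ℝ) - VN H') + t2 * ((VA H : ℝ) - VA H') - 0| ≤ 2 ^ l + 2
            then PT ε H * PT ε H' else 0) := by
              rw [mul_sum]; apply sum_congr rfl; intro H _; rw [mul_sum]
        _ ≤ _ := mul_le_mul_of_nonneg_left hRC (mul_nonneg (PT_nonneg _ _) (PT_nonneg _ _))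
    refine hkey.trans ?_
    have hmass : ∑ V : Fin j → Fin l → Fin 3, ∑ V' : Fin j → Fin l → Fin 3,
        PT ε V * PT ε V' * ((8 * (2 ^ l + 2) + 1) * (2:ℝ) ^ (-(hh ε * (l * v : ℕ)))) ≤
        (8 * (2 ^ l + 2) + 1) * (2:ℝ) ^ (-(hh ε * (l * v : ℕ))) := by
      have e : ∑ V : Fin j → Fin l → Fin 3, ∑ V' : Fin j → Fin l → Fin 3,
        PT ε V * PT ε V' * ((8 * (2 ^ l + 2) + 1) * (2:ℝ) ^ (-(hh ε * (l * v : ℕ)))) =
        ((∑ V : Fin j → Fin l → Fin 3, PT ε V) * (∑ V : Fin j → Fin l → Fin 3, PT ε V)) *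
          ((8 * (2 ^ l + 2) + 1) * (2:ℝ) ^ (-(hh ε * (l * v : ℕ)))) := by
        rw [sum_mul_sum, sum_mul]
        apply sum_congr rfl; intro V _
        rw [sum_mul]
      rw [e]
      have hs := H48.sum_PT_le ε hM j
      have hs0 : 0 ≤ ∑ V : Fin j → Fin l → Fin 3, PT ε V := sum_nonneg fun _ _ => PT_nonneg _ _
      have : (∑ V : Fin j → Fin l → Fin 3, PT ε V) * (∑ V : Fin j → Fin l → Fin 3, PT ε V) ≤ 1 := by
        nlinarith
      calc _ ≤ 1 * ((8 * (2 ^ l + 2) + 1) * (2:ℝ) ^ (-(hh ε * (l * v : ℕ)))) :=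
            mul_le_mul_of_nonneg_right this (by positivity)
        _ = _ := one_mul _
    refine hmass.trans ?_
    have h6 : (2:ℝ) ^ (-(hh ε * (l * v : ℕ))) ≤ (D / 2 ^ (l * (j + v))) ^ hh ε := by
      have e : (2:ℝ) ^ (-(hh ε * (l * v : ℕ))) = ((2:ℝ) ^ (l * j) / 2 ^ (l * (j + v))) ^ hh ε := by
        have : (2:ℝ) ^ (l * j) / 2 ^ (l * (j + v)) = (2:ℝ) ^ (-((l * v : ℕ) : ℝ)) := by
          rw [mul_add, pow_add, Real.rpow_neg (by norm_num), Real.rpow_natCast]
          field_simp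
        rw [this, ← Real.rpow_mul (by norm_num)]
        congr 1; ring
      rw [e]
      apply Real.rpow_le_rpow (by positivity) _ hh0
      exact div_le_div_of_nonneg_right hlow (by positivity)
    have h7 : (8 * ((2:ℝ) ^ l + 2) + 1) ≤ 25 * 2 ^ l := by linarith
    exact mul_le_mul h7 h6 (by positivity) (by positivity)

/-- SB for all directions -/
theorem SB' {ε : ℝ} (hε : 0 ≤ ε) {l : ℕ} (hl : 0 < l) (hP : PTB ε l) (hM : Marg ε l) (hh0 : 0 ≤ hh ε)
    (u : ℕ) (t1 t2 D : ℝ) (hθ : 0 < max |t1| |t2|) :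
    WP ε l u t1 t2 D ≤ 25 * 2 ^ l * (max 1 (D / max |t1| |t2|) / 2 ^ (l * u)) ^ hh ε := by
  set T := max |t1| |t2| with hT
  have h1 := WP_scale ε (l := l) u t1 t2 D (c := T⁻¹) (inv_pos.2 hθ)
  have habs : max |T⁻¹ * t1| |T⁻¹ * t2| = 1 := by
    rw [abs_mul, abs_mul, abs_of_pos (inv_pos.2 hθ), ← mul_max_of_nonneg _ _ (inv_pos.2 hθ).le, ← hT,
      inv_mul_cancel₀ hθ.ne']
  rw [← h1]
  have h2 : WP ε l u (T⁻¹ * t1) (T⁻¹ * t2) (T⁻¹ * D) ≤ WP ε l u (T⁻¹ * t1) (T⁻¹ * t2) (max 1 (D / T)) :=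
    WP_mono ε u _ _ (by rw [mul_comm, ← div_eq_mul_inv]; exact le_max_right _ _)
  exact h2.trans (SB hε hl hP hM hh0 u _ _ _ (by rw [habs]; norm_num) (by rw [habs]) (le_max_left _ _))

end Pool.Agent.H93.FL
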